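import Pool.Agent.H985R4.SW.Defs
import Pool.Agent.H974R4.Far

/-!
(FAR) a supercritical scale, sharp form.
-/

set_option autoImplicit false

namespace H985S

open H974 H12S H973N Finset

theorem far_s (h : St_W2) : St_FAR := by
  obtain ⟨κ, hκ, hκ2, hs⟩ := super_scale
  obtain ⟨X, h1, hX, hh1, hw⟩ := h κ hκ hκ2
  refine ⟨X + 2, min h1 (1/4), by linarith, lt_min hh1 (by norm_num), ?_⟩
  intro h hh hlt
  have l1 : h < h1 := lt_of_lt_of_le hlt (min_le_left _ _)
  have l2 : h < 1/4 := lt_of_lt_of_le hlt (min_le_right _ _)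
  obtain ⟨n, hn, hnW⟩ := hw (1/2 + h) (by linarith) (by linarith)
  have e1 : (1/2 + h - 1/2 : ℝ) = h := by ring
  rw [e1] at hn
  obtain ⟨N, hN2, hNn, hNe⟩ := hs (1/2 + h) (by linarith) (by linarith) n hnW
  refine ⟨N, hN2, ?_, hNe⟩
  have hN : (N:ℝ) ≤ n + 2 := by exact_mod_cast hNn
  have p1 : 1 ≤ h ^ (-(4/3 : ℝ)) :=
    Real.one_le_rpow_of_pos_of_le_one_of_nonpos hh (by linarith) (by linarith)
  nlinarith

end H985S
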