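import Pool.Agent.H985R4.SW.Defs
import Pool.Agent.H985R4.CW.Far

/-!
Rectangles above the critical window, sharp form.
-/

set_option autoImplicit false

namespace H985S

open H974 Finset

/-- (FRR) rectangles above the window -/
theorem frr_s (hfar : St_FAR) : St_FRR := by
  obtain ⟨X, h0, hX, hh0, hF⟩ := hfar
  intro Λ hΛ η hη
  have hΛr : (1:ℝ) ≤ Λ := by exact_mod_cast hΛ
  set R : ℝ := 2 * Λ + (4 * (Λ:ℝ)^2 + 1) * (Λ:ℝ)^2 / η with hR
  have hR0 : 0 ≤ (4 * (Λ:ℝ)^2 + 1) * (Λ:ℝ)^2 / η := by positivity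
  have hR1 : 2 * (Λ:ℝ) ≤ R := by linarith
  have hR2 : (4 * (Λ:ℝ)^2 + 1) * (Λ:ℝ)^2 / η ≤ R := by
    have : (0:ℝ) ≤ 2 * Λ := by positivity
    linarith
  have hRp : 0 < R := by linarith
  have hRge1 : 1 ≤ R := by linarith
  set C : ℝ := (X * R) ^ (3/4 : ℝ) with hC
  have hCp : 0 < C := by positivity
  have hC43 : C ^ (-(4/3 : ℝ)) = (X * R)⁻¹ := by
    rw [hC, ← Real.rpow_mul (by positivity)]
    rw [show (3/4 : ℝ) * -(4/3) = -1 by norm_num, Real.rpow_neg_one]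
  have t1 : Filter.Tendsto (fun n : ℕ => C * (n:ℝ)^(-(3/4 : ℝ))) Filter.atTop (nhds (C * 0)) :=
    ((tendsto_rpow_neg_atTop (by norm_num)).comp tendsto_natCast_atTop_atTop).const_mul C
  rw [mul_zero] at t1
  have hmin : 0 < min h0 (1/4) := by positivity
  have e1 := t1.eventually (gt_mem_nhds hmin)
  obtain ⟨n0, hn0⟩ := Filter.eventually_atTop.mp (e1.and (Filter.eventually_ge_atTop 1))
  refine ⟨C, n0, hCp, ?_⟩
  intro n hn a b ha1 ha hb p hp hp1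
  obtain ⟨k1, k2⟩ := hn0 n hn
  have k1a := lt_of_lt_of_le k1 (min_le_left _ _)
  have k1b := lt_of_lt_of_le k1 (min_le_right _ _)
  have hnr : (1:ℝ) ≤ n := by exact_mod_cast k2
  have hnp : (0:ℝ) < n := by linarith
  set h' : ℝ := C * (n:ℝ)^(-(3/4 : ℝ)) with hh'
  have hh'p : 0 < h' := by positivity
  obtain ⟨N, hN2, hNle, hbase⟩ := hF h' hh'p k1a
  have hNle' : (N:ℝ) ≤ n / R := by
    refine hNle.trans (le_of_eq ?_)
    rw [hh', Real.mul_rpow hCp.le (by positivity), hC43, ← Real.rpow_mul hnp.le,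
      show -(3/4 : ℝ) * -(4/3) = 1 by norm_num, Real.rpow_one]
    field_simp
  have hNr : (2:ℝ) ≤ N := by exact_mod_cast hN2
  have hNp : (0:ℝ) < N := by linarith
  set q : ℝ := 1/2 + h' with hq
  have h0q : 0 ≤ q := by linarith
  have h1q : q ≤ 1 := by linarith
  have hNR : (N:ℝ) * R ≤ n := by
    rwa [le_div_iff₀ hRp] at hNle'
  -- number of doublings
  set y : ℝ := (n:ℝ) / (Λ * N) with hy
  have hyR : R / Λ ≤ y := by
    rw [hy, div_le_div_iff₀ (by linarith) (by positivity)]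
    nlinarith
  have hy2 : 2 ≤ y := by
    refine le_trans ?_ hyR
    rw [le_div_iff₀ (by linarith)]
    exact hR1
  set j : ℕ := Nat.log 2 ⌊y⌋₊ with hj
  have hfl : 2 ≤ ⌊y⌋₊ := Nat.le_floor (by exact_mod_cast hy2)
  have hj1 : (2:ℝ)^j ≤ y := by
    have h1 := Nat.pow_log_le_self 2 (show ⌊y⌋₊ ≠ 0 by omega)
    have h2 : ((2^j : ℕ):ℝ) ≤ (⌊y⌋₊ : ℝ) := by exact_mod_cast h1
    have h3 : (⌊y⌋₊ : ℝ) ≤ y := Nat.floor_le (by linarith)
    push_cast at h2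
    linarith
  have hj2 : y < (2:ℝ)^(j + 1) := by
    have h1 : ⌊y⌋₊ < 2^(j + 1) := Nat.lt_pow_succ_log_self (by norm_num) _
    have h2 : y < (⌊y⌋₊ : ℝ) + 1 := Nat.lt_floor_add_one y
    have h3 : (⌊y⌋₊ : ℝ) + 1 ≤ ((2^(j + 1) : ℕ) : ℝ) := by exact_mod_cast h1
    push_cast at h3
    linarith
  have hyn : y * (Λ * N) = n := by
    rw [hy]; field_simp
  set M : ℕ := 2^j * N with hM
  have hM2 : 2 ≤ M := le_trans hN2 (Nat.le_mul_of_pos_left N (by positivity))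
  have hMr : (M:ℝ) = 2^j * N := by rw [hM]; push_cast; ring
  have hMle : (Λ:ℝ) * M ≤ n := by
    rw [hMr, ← hyn]
    calc (Λ:ℝ) * (2^j * N) = 2^j * (Λ * N) := by ring
      _ ≤ y * (Λ * N) := mul_le_mul_of_nonneg_right hj1 (by positivity)
  have hMge : (n:ℝ) ≤ 2 * Λ * M := by
    rw [hMr, ← hyn]
    calc y * (Λ * N) ≤ 2^(j + 1) * (Λ * N) := mul_le_mul_of_nonneg_right hj2.le (by positivity)
      _ = 2 * Λ * (2^j * N) := by rw [pow_succ]; ring
  have hRL : 0 < R / Λ := by positivity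
  have heM : 25 * eps q M ≤ ((R / Λ)^2)⁻¹ := by
    have i1 := eps_pow h0q h1q hN2 hbase j
    rw [← hM] at i1
    refine i1.trans ?_
    have i2 : (R / Λ)^2 ≤ 4^(j + 1) := by
      have : (4:ℝ)^(j + 1) = ((2:ℝ)^(j + 1))^2 := by
        rw [← pow_mul, mul_comm, pow_mul]; norm_num
      rw [this]
      exact pow_le_pow_left₀ hRL.le (hyR.trans hj2.le) 2
    have i3 : ((1:ℝ)/4)^(j + 1) = (4^(j + 1))⁻¹ := by
      rw [one_div, inv_pow]
    rw [i3]
    exact inv_anti₀ (by positivity) i2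
  -- number of glued pieces
  set k : ℕ := 2 * Λ^2 with hk
  have hwide : (a:ℝ) ≤ k * M := by
    have i1 : (a:ℝ) ≤ Λ * n := by exact_mod_cast ha
    calc (a:ℝ) ≤ Λ * n := i1
      _ ≤ Λ * (2 * Λ * M) := mul_le_mul_of_nonneg_left hMge (by linarith)
      _ = k * M := by rw [hk]; push_cast; ring
  have hwide' : (a:ℤ) ≤ 2 * M + k * (M + 1) := by
    have h2 : (a:ℤ) ≤ k * M := by exact_mod_cast hwide
    have h3 : (0:ℤ) ≤ k := by positivity
    nlinarith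
  have hhigh : (M:ℤ) - 1 ≤ b := by
    have i1 : (n:ℝ) ≤ Λ * b := by exact_mod_cast hb
    have i3 : (Λ:ℝ) * M ≤ Λ * b := hMle.trans i1
    have i4 : (M:ℝ) ≤ b := le_of_mul_le_mul_left i3 (by linarith)
    have : (M:ℤ) ≤ b := by exact_mod_cast i4
    omega
  have hs := H985CW.strip h0q h1q hM2 k
  have hmono : hh q (2 * M + k * (M + 1)) (M - 1) ≤ hh q a b :=
    hh_mono h0q h1q (by omega) hwide' hhigh
  have hpar : hh q a b ≤ hh p a b := hh_mono_param h0q hp hp1 _ _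
  have heps := eps_nonneg h0q h1q M
  have hfin : (2 * (k:ℝ) + 1) * eps q M ≤ η := by
    have i1 : 2 * (k:ℝ) + 1 = 4 * (Λ:ℝ)^2 + 1 := by rw [hk]; push_cast; ring
    have i3 : eps q M ≤ ((R / Λ)^2)⁻¹ := by linarith
    rw [i1]
    rw [div_le_iff₀ hη] at hR2
    calc (4 * (Λ:ℝ)^2 + 1) * eps q M ≤ (4 * (Λ:ℝ)^2 + 1) * ((R / Λ)^2)⁻¹ :=
          mul_le_mul_of_nonneg_left i3 (by positivity)
      _ = (4 * (Λ:ℝ)^2 + 1) * (Λ:ℝ)^2 / R^2 := by field_simp
      _ ≤ η := by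
        rw [div_le_iff₀ (by positivity)]
        calc (4 * (Λ:ℝ)^2 + 1) * (Λ:ℝ)^2 ≤ R * η := hR2
          _ = (η * R) * 1 := by ring
          _ ≤ (η * R) * R := mul_le_mul_of_nonneg_left hRge1 (by positivity)
          _ = η * R^2 := by ring
  linarith

end H985S
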