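import Pool.Agent.H985R4.SW.Defs

/-! The sharp critical window: rectangles below the window, and the rectangles of the problem. -/

set_option autoImplicit false

namespace H985S

open H974 H12S Finset

/-- below the window, by duality -/
theorem frr_dual (h : St_FRR) : ∀ Λ : ℕ, 1 ≤ Λ → ∀ η : ℝ, 0 < η → ∃ (C : ℝ) (n0 : ℕ), 0 < C ∧
    ∀ n : ℕ, n0 ≤ n → ∀ a b : ℕ, n ≤ Λ * a → b ≤ Λ * n → ∀ p : ℝ,
      p ≤ 1/2 - C * (n:ℝ) ^ (-(3/4 : ℝ)) → 0 ≤ p → hh p a b ≤ η := by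
  intro Λ hΛ η hη
  obtain ⟨C, n0, hC, h⟩ := h (2 * Λ) (by omega) η hη
  refine ⟨C, max n0 (4 * Λ), hC, ?_⟩
  intro n hn a b ha hb p hp hp0
  have hn0 : n0 ≤ n := (le_max_left _ _).trans hn
  have hn1 : 4 * Λ ≤ n := (le_max_right _ _).trans hn
  have ha4 : 4 ≤ a := by
    by_contra hcon
    have : a ≤ 3 := by omega
    have : Λ * a ≤ Λ * 3 := Nat.mul_le_mul_left _ this
    omega
  have h2 := h n hn0 (b + 1) (a - 1) (by omega) (by nlinarith) (by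
    have : Λ * a ≤ 2 * Λ * (a - 1) := by
      have e : a ≤ 2 * (a - 1) := by omega
      calc Λ * a ≤ Λ * (2 * (a - 1)) := Nat.mul_le_mul_left _ e
        _ = 2 * Λ * (a - 1) := by ring
    omega) (1 - p) (by linarith) (by linarith)
  have h3 := hh_dual (q := p) (w := (a:ℤ)) (h := (b:ℤ)) (by omega) (by omega)
  have e1 : (((b + 1 : ℕ)) : ℤ) = (b:ℤ) + 1 := by push_cast; ring
  have e2 : (((a - 1 : ℕ)) : ℤ) = (a:ℤ) - 1 := by omega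
  rw [e1, e2] at h2
  linarith

/-- Comparison of `⌊L n⌋` with `n`. -/
theorem floor_cmp {L : ℝ} (hL : 0 < L) : ∃ Λ n0 : ℕ, 1 ≤ Λ ∧ ∀ n : ℕ, n0 ≤ n →
    1 ≤ ⌊L * n⌋₊ ∧ ⌊L * n⌋₊ ≤ Λ * n ∧ n ≤ Λ * ⌊L * n⌋₊ := by
  obtain ⟨k1, hk1⟩ := exists_nat_gt L
  obtain ⟨k2, hk2⟩ := exists_nat_gt (2 / L)
  refine ⟨max (max k1 k2) 1, ⌈2 / L⌉₊ + 1, le_max_right _ _, ?_⟩
  intro n hn
  have hnr : 2 / L ≤ n := by
    have h1 : (2:ℝ) / L ≤ ⌈2 / L⌉₊ := Nat.le_ceil _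
    have h2 : ((⌈2 / L⌉₊ + 1 : ℕ):ℝ) ≤ n := by exact_mod_cast hn
    push_cast at h2
    linarith
  have hLn : 2 ≤ L * n := by
    rw [div_le_iff₀ hL] at hnr
    linarith
  have hn0 : (0:ℝ) ≤ n := Nat.cast_nonneg n
  have hfl : L * n / 2 ≤ (⌊L * n⌋₊ : ℝ) := by
    have := Nat.lt_floor_add_one (L * n)
    linarith
  have hΛ1 : (k1:ℝ) ≤ ((max (max k1 k2) 1 : ℕ) : ℝ) := by
    exact_mod_cast (le_max_left k1 k2).trans (le_max_left _ 1)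
  have hΛ2 : (k2:ℝ) ≤ ((max (max k1 k2) 1 : ℕ) : ℝ) := by
    exact_mod_cast (le_max_right k1 k2).trans (le_max_left _ 1)
  refine ⟨?_, ?_, ?_⟩
  · exact Nat.le_floor (by push_cast; linarith)
  · have : (⌊L * n⌋₊ : ℝ) ≤ ((max (max k1 k2) 1 * n : ℕ) : ℝ) := by
      push_cast at hΛ1 ⊢
      calc (⌊L * n⌋₊ : ℝ) ≤ L * n := Nat.floor_le (by linarith)
        _ ≤ _ := mul_le_mul_of_nonneg_right (by linarith) hn0
    exact_mod_cast this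
  · have : (n : ℝ) ≤ ((max (max k1 k2) 1 * ⌊L * n⌋₊ : ℕ) : ℝ) := by
      push_cast at hΛ2 ⊢
      have h1 : (2 / L) * (L * n / 2) = n := by field_simp
      calc (n:ℝ) = (2 / L) * (L * n / 2) := h1.symm
        _ ≤ _ := mul_le_mul (by linarith) hfl (by linarith) (by
          have : 0 < 2 / L := by positivity
          linarith)
    exact_mod_cast this

/-- The final form. -/
theorem window (hN : St_NR) (hF : St_FRR) (L l : ℝ) (hL : 0 < L) (hl : 0 < l) (η : ℝ)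
    (hη : 0 < η) : ∃ (c C : ℝ) (n0 : ℕ), 0 < c ∧ 0 < C ∧ ∀ n : ℕ, n0 ≤ n → ∀ p : ℝ,
      0 ≤ p → p ≤ 1 → 1 ≤ ⌊L * n⌋₊ ∧
      (|p - 1/2| ≤ c * (n:ℝ) ^ (-(3/4 : ℝ)) →
        |hh p ⌊L * n⌋₊ ⌊l * n⌋₊ - hh (1/2) ⌊L * n⌋₊ ⌊l * n⌋₊| ≤ η) ∧
      (1/2 + C * (n:ℝ) ^ (-(3/4 : ℝ)) ≤ p → 1 - η ≤ hh p ⌊L * n⌋₊ ⌊l * n⌋₊) ∧
      (p ≤ 1/2 - C * (n:ℝ) ^ (-(3/4 : ℝ)) → hh p ⌊L * n⌋₊ ⌊l * n⌋₊ ≤ η) := by
  obtain ⟨Λ1, n1, hΛ1, h1⟩ := floor_cmp hL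
  obtain ⟨Λ2, n2, hΛ2, h2⟩ := floor_cmp hl
  set Λ := max Λ1 Λ2 with hΛ
  have hΛ0 : 1 ≤ Λ := hΛ1.trans (le_max_left _ _)
  obtain ⟨c, hc, g1⟩ := hN Λ hΛ0 η hη
  obtain ⟨C, n3, hC, g2⟩ := hF Λ hΛ0 η hη
  obtain ⟨C', n4, hC', g3⟩ := frr_dual hF Λ hΛ0 η hη
  refine ⟨c, max C C', max (max n1 n2) (max (max n3 n4) 1), hc, lt_max_of_lt_left hC, ?_⟩
  intro n hn p hp0 hp1
  have hn1 : n1 ≤ n := (le_max_left _ _).trans ((le_max_left _ _).trans hn)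
  have hn2 : n2 ≤ n := (le_max_right _ _).trans ((le_max_left _ _).trans hn)
  have hn3 : n3 ≤ n := (le_max_left _ _).trans ((le_max_left _ _).trans
    ((le_max_right _ _).trans hn))
  have hn4 : n4 ≤ n := (le_max_right _ _).trans ((le_max_left _ _).trans
    ((le_max_right _ _).trans hn))
  have hn5 : 1 ≤ n := (le_max_right _ _).trans ((le_max_right _ _).trans hn)
  obtain ⟨a1, a2, a3⟩ := h1 n hn1
  obtain ⟨b1, b2, b3⟩ := h2 n hn2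
  have a2' : ⌊L * n⌋₊ ≤ Λ * n := a2.trans (Nat.mul_le_mul_right _ (le_max_left _ _))
  have a3' : n ≤ Λ * ⌊L * n⌋₊ := a3.trans (Nat.mul_le_mul_right _ (le_max_left _ _))
  have b2' : ⌊l * n⌋₊ ≤ Λ * n := b2.trans (Nat.mul_le_mul_right _ (le_max_right _ _))
  have b3' : n ≤ Λ * ⌊l * n⌋₊ := b3.trans (Nat.mul_le_mul_right _ (le_max_right _ _))
  have hX : 0 ≤ (n:ℝ) ^ (-(3/4 : ℝ)) := by positivity
  refine ⟨a1, ?_, ?_, ?_⟩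
  · intro hp
    exact g1 n hn5 _ _ a1 a2' b2' p hp
  · intro hp
    refine g2 n hn3 _ _ a1 a2' b3' p ?_ hp1
    have := mul_le_mul_of_nonneg_right (le_max_left C C') hX
    linarith
  · intro hp
    refine g3 n hn4 _ _ a3' b2' p ?_ hp0
    have := mul_le_mul_of_nonneg_right (le_max_right C C') hX
    linarith

end H985S
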