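import Pool.Agent.H985R4.SW.Defs

/-!
Sharp window, task KEY: the one-scale inequality without pigeonhole.
-/

set_option autoImplicit false

namespace H985S

open H974 H12S H973N Finset

theorem key_s : St_KEY := by
  intro κ hκ
  obtain ⟨C, c, hC, hc, hex⟩ := exit3 κ hκ
  obtain ⟨L, hL, hLK⟩ := KY_choose_L C c 2 hc
  have hL0 : (0:ℝ) < L := by
    have : 0 < L := by omega
    exact_mod_cast this
  obtain ⟨K, hK⟩ : ∃ K : ℝ, K = (64 * (3 * L : ℕ) : ℝ) ^ (2:ℝ) := ⟨_, rfl⟩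
  have hK2 : K = 9 * (64 * (L:ℝ)) ^ (2:ℝ) := by
    rw [hK, Real.rpow_two, Real.rpow_two]
    push_cast
    ring
  have hK0 : 0 < K := by rw [hK2]; positivity
  rw [← hK] at hLK
  obtain ⟨M1, M2, hM1, hM8, hex2⟩ := hex L (1 / (32 * K)) hL (by positivity)
  obtain ⟨N, hexN⟩ := hex2 M2 le_rfl
  have hM2pos : 0 < M2 := by omega
  have hη : (1 / (32 * K) + C * Real.exp (-c * L)) * K ≤ 1 / 16 := by
    have e1 : 1 / (32 * K) * K = 1 / 32 := by field_simp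
    calc (1 / (32 * K) + C * Real.exp (-c * L)) * K
        = 1 / (32 * K) * K + C * Real.exp (-c * L) * K := by ring
      _ ≤ 1 / 32 + 1 / 32 := by rw [e1]; linarith
      _ = 1 / 16 := by norm_num
  obtain ⟨η, hηd⟩ : ∃ η : ℝ, η = 1 / (32 * K) + C * Real.exp (-c * L) := ⟨_, rfl⟩
  have hη0 : 0 < η := by rw [hηd]; positivity
  rw [← hηd] at hη
  obtain ⟨cd, hcd⟩ : ∃ cd : ℕ, cd = (2 * (2 * N + 1)) * (2 * (2 * N + 1)) := ⟨_, rfl⟩
  refine ⟨L, 8 * cd + 1, 8 * η, 4 * L * max M2 512, hL, by positivity, by positivity, ?_, ?_⟩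
  · have h64 : (1:ℝ) ≤ 64 * (L:ℝ) := by
      have : (1:ℝ) ≤ L := by
        have : 1 ≤ L := by omega
        exact_mod_cast this
      linarith
    have h1 : (64 * (L:ℝ)) ^ (5/4 : ℝ) ≤ (64 * (L:ℝ)) ^ (2 : ℝ) :=
      Real.rpow_le_rpow_of_exponent_le h64 (by norm_num)
    have h2 : 8 * η * (64 * (L:ℝ)) ^ (5/4 : ℝ) ≤ 8 * η * (64 * (L:ℝ)) ^ (2 : ℝ) :=
      mul_le_mul_of_nonneg_left h1 (by positivity)
    rw [hK2] at hη
    have h3 : η * (9 * (64 * (L:ℝ)) ^ (2:ℝ)) = 9 * (η * (64 * (L:ℝ)) ^ (2:ℝ)) := by ring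
    have h4 : 8 * η * (64 * (L:ℝ)) ^ (2 : ℝ) = 8 * (η * (64 * (L:ℝ)) ^ (2:ℝ)) := by ring
    rw [h3] at hη
    rw [h4] at h2
    linarith
  intro q n hW k hk hkn
  have h0 : 0 ≤ q := by linarith [hW.lo]
  have h1 : q ≤ 1 := by linarith [hW.hi]
  have ha0 : ∀ j, 0 ≤ a4 q j := fun j => a4_nonneg h0 h1 j
  have h4L : 0 < 4 * L := by omega
  obtain ⟨m, hmd⟩ : ∃ m : ℕ, m = k / (4 * L) := ⟨_, rfl⟩
  have hmmax : max M2 512 ≤ m := by
    rw [hmd, Nat.le_div_iff_mul_le h4L]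
    calc max M2 512 * (4 * L) = 4 * L * max M2 512 := by ring
      _ ≤ k := hk
  have hm512 : 512 ≤ m := (le_max_right _ _).trans hmmax
  have hmM : M2 ≤ m := (le_max_left _ _).trans hmmax
  have hmk : 4 * L * m ≤ k := by
    rw [hmd]
    exact Nat.mul_div_le k (4 * L)
  have hkm : k ≤ 8 * L * m := by
    have h2 : k < 4 * L * (m + 1) := by
      rw [hmd]
      exact Nat.lt_mul_div_succ k h4L
    have h3 : 4 * L * (m + 1) ≤ 8 * L * m := by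
      have : 4 * L * 1 ≤ 4 * L * m := Nat.mul_le_mul_left _ (by omega)
      nlinarith
    omega
  have hm64 : 64 ≤ m := by omega
  have hmn : 4 * L * m ≤ n := hmk.trans hkn
  obtain ⟨r, hr⟩ : ∃ r : ℕ, r = m / M2 := ⟨_, rfl⟩
  obtain ⟨idx, hidx⟩ : ∃ idx : Finset ((Bool × ℤ) × (Bool × ℤ)), idx =
      (((univ : Finset Bool) ×ˢ Icc (-(N:ℤ)) N) ×ˢ
      ((univ : Finset Bool) ×ˢ Icc (-(N:ℤ)) N)).filter (fun p =>
        |2 * (r:ℤ) * p.1.2| ≤ (L * m : ℕ) + (r:ℤ) ∧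
        |2 * (r:ℤ) * p.2.2| ≤ (L * m : ℕ) + (r:ℤ)) := ⟨_, rfl⟩
  have hcard : idx.card ≤ cd := by
    rw [hidx, hcd]
    refine (Finset.card_filter_le _ _).trans ?_
    rw [Finset.card_product, Finset.card_product, Int.card_Icc, Finset.card_univ,
      Fintype.card_bool]
    have : ((N:ℤ) + 1 - -(N:ℤ)).toNat = 2 * N + 1 := by omega
    rw [this]
  have hne : idx.Nonempty := by
    rw [hidx]
    refine ⟨((true, 0), (true, 0)), ?_⟩
    simp only [Finset.mem_filter, Finset.mem_product, Finset.mem_Icc, Finset.mem_univ, true_and,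
      mul_zero, abs_zero]
    refine ⟨⟨⟨by omega, by omega⟩, ⟨by omega, by omega⟩⟩, ?_, ?_⟩ <;> positivity
  set T : (Bool × ℤ) × (Bool × ℤ) → ℝ := fun p =>
    TS q L m r (m / M1) p.1.1 p.1.2 p.2.1 p.2.2 with hT
  have hs := a4_sum_ge h0 h1 hL hm64
  have hex3 : ∀ e ∈ boxE (m / 4),
      PQ q (SR L m) (fun F => A4 (-(2 * L * m : ℕ)) (2 * L * m : ℕ) (-m) m e ↑F) ≤
        (∑ p ∈ idx, PQ q (SR L m) (fun F =>
          Sev L m r (m / M1) p.1.1 (2 * r * p.1.2) p.2.1 (2 * r * p.2.2) e ↑F)) +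
        η * a4 q (m / 8) := by
    intro e he
    have h := hexN q n hW m hmM hmn e he
    rw [← hr, ← hηd] at h
    rw [hidx]
    exact h
  have hs2 : ∑ e ∈ boxE (m / 4), PQ q (SR L m)
        (fun F => A4 (-(2 * L * m : ℕ)) (2 * L * m : ℕ) (-m) m e ↑F) ≤
      ∑ p ∈ idx, T p + η * ((m:ℝ) ^ 2 * a4 q (m / 8)) := by
    refine (Finset.sum_le_sum hex3).trans ?_
    rw [Finset.sum_add_distrib, Finset.sum_comm, Finset.sum_const, nsmul_eq_mul]
    refine add_le_add le_rfl ?_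
    calc ((boxE (m / 4)).card : ℝ) * (η * a4 q (m / 8))
        ≤ (m:ℝ) ^ 2 * (η * a4 q (m / 8)) :=
          mul_le_mul_of_nonneg_right (KY_card hm64) (mul_nonneg hη0.le (ha0 _))
      _ = _ := by ring
  obtain ⟨p', hp', hmax⟩ := Finset.exists_max_image idx T hne
  have hs4 : ∑ p ∈ idx, T p ≤ (idx.card : ℝ) * T p' := by
    rw [← nsmul_eq_mul]
    exact Finset.sum_le_card_nsmul _ _ _ hmax
  have hTn : 0 ≤ T p' := by
    rw [hT]
    show 0 ≤ TS q L m r (m / M1) p'.1.1 p'.1.2 p'.2.1 p'.2.2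
    unfold TS
    exact Finset.sum_nonneg fun e _ => Pr_nonneg (okq h0 h1) _ _
  have hcd' : (idx.card : ℝ) ≤ cd := by exact_mod_cast hcard
  have hs5 : (idx.card : ℝ) * T p' ≤ cd * T p' := mul_le_mul_of_nonneg_right hcd' hTn
  have hmpos : 1 ≤ 4 * L * m := by nlinarith
  have h4 : a4 q k ≤ a4 q (4 * L * m) := a4_anti h0 h1 hmpos hmk
  have h5 : T p' ≤
      ∑ e ∈ boxE (m / 4), PQ q (SR L m) (Pf (fun F : Finset Edg =>
        Cn (cell p'.1.1 m (2 * (r : ℕ) * p'.1.2) r)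
          (cell p'.2.1 m (2 * (r : ℕ) * p'.2.2) r) ↑F) e) := by
    rw [hT]
    show TS q L m r (m / M1) p'.1.1 p'.1.2 p'.2.1 p'.2.2 ≤ _
    unfold TS
    apply Finset.sum_le_sum
    intro e _
    apply Pr_mono (okq h0 h1)
    intro F _ hF
    rw [← Pv_iff]
    refine Qev_Pv ?_ hF.1
    have : m / M2 ≤ m / M1 := Nat.div_le_div_left (by omega) (by omega)
    omega
  refine ⟨m, hm512, hmk, hkm, cell p'.1.1 m (2 * (r : ℕ) * p'.1.2) r,
    cell p'.2.1 m (2 * (r : ℕ) * p'.2.2) r, ?_, ?_⟩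
  · have hc : ∀ (τ : Bool) (x : ℤ) (r : ℕ), ∀ v ∈ cell τ m x r, (m:ℤ) ≤ |v.2| := by
      intro τ x r v hv
      have hv2 : v.2 = sy τ m := (mem_cell.mp hv).1
      rw [hv2]
      cases τ
      · unfold sy; simp
      · unfold sy; simp
    rintro v (hv | hv)
    · exact hc _ _ _ v hv
    · exact hc _ _ _ v hv
  · have hm2 : (0:ℝ) ≤ (m:ℝ) ^ 2 := by positivity
    have h6 : (m:ℝ) ^ 2 * a4 q k ≤ (m:ℝ) ^ 2 * a4 q (4 * L * m) :=
      mul_le_mul_of_nonneg_left h4 hm2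
    have h7 : (m:ℝ) ^ 2 * a4 q (4 * L * m) = 8 * ((m:ℝ) ^ 2 / 8 * a4 q (4 * L * m)) := by ring
    have h8 : (8 * (cd:ℝ) + 1) * T p' ≤ (8 * (cd:ℝ) + 1) * _ :=
      mul_le_mul_of_nonneg_left h5 (by positivity)
    have h9 : (8 * (cd:ℝ) + 1) * T p' = 8 * (cd * T p') + T p' := by ring
    have h10 : 8 * η * ((m:ℝ) ^ 2 * a4 q (m / 8)) = 8 * (η * ((m:ℝ) ^ 2 * a4 q (m / 8))) := by ring
    rw [h10]
    linarith

end H985S
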