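import Pool.Agent.H985R4.SW.Defs

/-!
Task LOW (helper311): sharp lower bound of the four-arm probability in the window.
-/

set_option maxHeartbeats 1000000
set_option autoImplicit false

namespace H985S

open H974 H12S H973N Finset

/-- The ratio estimate at `1/2`. -/
theorem LOW_ratio {c C : ℝ} (hc : 0 < c) (hC : 0 < C)
    (h54 : ∀ k : ℕ, 1 ≤ k → c * (k:ℝ) ^ (-(5/4) : ℝ) ≤ a4 (1/2) k ∧
      a4 (1/2) k ≤ C * (k:ℝ) ^ (-(5/4) : ℝ)) (L m : ℕ) (hL : 2 ≤ L) (hm : 8 ≤ m) :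
    a4 (1/2) (m / 8) ≤ (192 * (L:ℝ)) ^ ((5/4 : ℝ) + Real.log (C/c + 1)) *
      a4 (1/2) (4 * L * m) := by
  have hL2 : (2:ℝ) ≤ L := by exact_mod_cast hL
  have hm8 : (8:ℝ) ≤ m := by exact_mod_cast hm
  have hLpos : (0:ℝ) < L := by linarith
  have hmpos : (0:ℝ) < m := by linarith
  have h1 := (h54 (m / 8) (by omega)).2
  have h2 := (h54 (4 * L * m) (by
    have : 1 ≤ 4 * L * m := by
      have : 0 < 4 * L * m := by positivity
      omega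
    exact this)).1
  -- `m / 8 ≥ m / 16`
  have h3 : (m:ℝ) / 16 ≤ ((m / 8 : ℕ) : ℝ) := by
    have : m ≤ 16 * (m / 8) := by omega
    have : (m:ℝ) ≤ 16 * ((m / 8 : ℕ) : ℝ) := by exact_mod_cast this
    linarith
  have h4 : ((m / 8 : ℕ) : ℝ) ^ (-(5/4) : ℝ) ≤ ((m:ℝ) / 16) ^ (-(5/4) : ℝ) :=
    Real.rpow_le_rpow_of_nonpos (by positivity) h3 (by norm_num)
  have h5 : ((m:ℝ) / 16) ^ (-(5/4) : ℝ) =
      (64 * (L:ℝ)) ^ (5/4 : ℝ) * (((4 * L * m : ℕ) : ℕ) : ℝ) ^ (-(5/4) : ℝ) := by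
    have e1 : (m:ℝ) / 16 = (64 * (L:ℝ))⁻¹ * ((4 * L * m : ℕ) : ℝ) := by
      push_cast
      field_simp
      norm_num
    rw [e1, Real.mul_rpow (by positivity) (by positivity)]
    congr 1
    rw [Real.rpow_neg (by positivity), Real.inv_rpow (by positivity), inv_inv]
  have h6 : (64 * (L:ℝ)) ^ (5/4 : ℝ) ≤ (192 * (L:ℝ)) ^ (5/4 : ℝ) :=
    Real.rpow_le_rpow (by positivity) (by linarith) (by norm_num)
  have hr : 0 < C / c + 1 := by positivity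
  have hlog : 0 ≤ Real.log (C/c + 1) := Real.log_nonneg (by
    have : 0 < C / c := by positivity
    linarith)
  have h7 : C / c ≤ (192 * (L:ℝ)) ^ (Real.log (C/c + 1)) := by
    have e1 : Real.exp 1 ≤ 192 * (L:ℝ) := by
      have := Real.exp_one_lt_d9
      linarith
    have e2 : (Real.exp 1) ^ (Real.log (C/c + 1)) ≤ (192 * (L:ℝ)) ^ (Real.log (C/c + 1)) :=
      Real.rpow_le_rpow (Real.exp_pos 1).le e1 hlog
    have e3 : (Real.exp 1) ^ (Real.log (C/c + 1)) = C/c + 1 := by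
      rw [← Real.exp_mul, one_mul, Real.exp_log hr]
    linarith
  set Y : ℝ := (((4 * L * m : ℕ) : ℕ) : ℝ) ^ (-(5/4) : ℝ) with hY
  have hYpos : 0 ≤ Y := by positivity
  calc a4 (1/2) (m / 8) ≤ C * ((m / 8 : ℕ) : ℝ) ^ (-(5/4) : ℝ) := h1
    _ ≤ C * ((64 * (L:ℝ)) ^ (5/4 : ℝ) * Y) := by
        rw [← h5]
        exact mul_le_mul_of_nonneg_left h4 hC.le
    _ = (C / c) * (64 * (L:ℝ)) ^ (5/4 : ℝ) * (c * Y) := by
        field_simp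
    _ ≤ (192 * (L:ℝ)) ^ (Real.log (C/c + 1)) * (192 * (L:ℝ)) ^ (5/4 : ℝ) * (c * Y) := by
        apply mul_le_mul_of_nonneg_right _ (by positivity)
        exact mul_le_mul h7 h6 (by positivity) (by positivity)
    _ ≤ (192 * (L:ℝ)) ^ (Real.log (C/c + 1)) * (192 * (L:ℝ)) ^ (5/4 : ℝ) *
          a4 (1/2) (4 * L * m) := by
        exact mul_le_mul_of_nonneg_left h2 (by positivity)
    _ = (192 * (L:ℝ)) ^ ((5/4 : ℝ) + Real.log (C/c + 1)) * a4 (1/2) (4 * L * m) := by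
        rw [Real.rpow_add (by positivity)]
        ring

theorem low_s (hTD : St_TD) (hSTAB : St_STAB) : St_LOW := by
  obtain ⟨κ, A, κ1, hκ, hA, hκ1, hst⟩ := hSTAB
  obtain ⟨c, C, hc, hC, h54⟩ := Pool.Agent.H988R6.a4_sharp
  have hlog : 0 ≤ Real.log (C/c + 1) := Real.log_nonneg (by
    have : 0 < C / c := by positivity
    linarith)
  obtain ⟨L, M1, M2, C1, hL, hM1, hM2, -, hC1, hkey⟩ :=
    key_scale exit3 κ hκ ((5/4 : ℝ) + Real.log (C/c + 1)) (by positivity) 1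
  obtain ⟨C3, hC3, hT⟩ := hTD κ hκ L hL
  have hL2 : (2:ℝ) ≤ L := by exact_mod_cast hL
  have hLpos : (0:ℝ) < L := by linarith
  have hM512 : 512 ≤ M2 := by omega
  have hM2r : (512:ℝ) ≤ M2 := by exact_mod_cast hM512
  have hM2pos : (0:ℝ) < M2 := by linarith
  obtain ⟨c2, hc2⟩ : ∃ c2 : ℝ, c2 = c * (4 * (L:ℝ)) ^ (-(5/4) : ℝ) / C1 := ⟨_, rfl⟩
  have hc2pos : 0 < c2 := by rw [hc2]; positivity
  obtain ⟨κ2, hκ2⟩ : ∃ κ2 : ℝ, κ2 = min κ1 (c2 / (2 * C3 * A^2)) := ⟨_, rfl⟩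
  have hA0 : 0 < A := by linarith
  have hκ2pos : 0 < κ2 := by rw [hκ2]; exact lt_min hκ1 (by positivity)
  have hκ21 : κ2 ≤ κ1 := by rw [hκ2]; exact min_le_left _ _
  have hκ22 : C3 * A^2 * κ2 ≤ c2 / 2 := by
    have h1 : κ2 ≤ c2 / (2 * C3 * A^2) := by rw [hκ2]; exact min_le_right _ _
    have h2 := mul_le_mul_of_nonneg_left h1 (by positivity : 0 ≤ C3 * A^2)
    refine h2.trans (le_of_eq ?_)
    field_simp
  -- the main step
  have main : ∀ n : ℕ, 1 ≤ n → ∀ q : ℝ, |q - 1/2| ≤ κ2 * (n:ℝ) ^ (-(3/4 : ℝ)) →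
      ∀ r : ℕ, 1 ≤ r → 4 * L * (M2 * r) ≤ n →
        c2 / 2 * ((M2 * r : ℕ) : ℝ) ^ (-(5/4 : ℝ)) ≤ a4 q (M2 * r / 2) := by
    intro n hn q hq r hr hmn
    obtain ⟨m, hmdef⟩ : ∃ m : ℕ, m = M2 * r := ⟨_, rfl⟩
    rw [← hmdef] at hmn ⊢
    have hnr : (1:ℝ) ≤ n := by exact_mod_cast hn
    have hm512 : 512 ≤ m := by rw [hmdef]; nlinarith
    have hmr : (512:ℝ) ≤ m := by exact_mod_cast hm512
    have hmpos : (0:ℝ) < m := by linarith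
    have hmn' : m ≤ n := by nlinarith
    have hn0 : 0 < (n:ℝ) ^ (-(3/4 : ℝ)) := by positivity
    have hqA : ∀ t ∈ Set.uIcc (1/2) q, H12S.Win t κ n ∧ A4s t A n := by
      intro t ht
      apply hst n hn t
      have i1 : |t - 1/2| ≤ |q - 1/2| := Set.abs_sub_left_of_mem_uIcc ht
      calc |t - 1/2| ≤ |q - 1/2| := i1
        _ ≤ κ2 * (n:ℝ) ^ (-(3/4 : ℝ)) := hq
        _ ≤ κ1 * (n:ℝ) ^ (-(3/4 : ℝ)) := mul_le_mul_of_nonneg_right hκ21 hn0.le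
    have hwq := (hqA q Set.right_mem_uIcc).1
    have hq0 : 0 ≤ q := by linarith [hwq.lo]
    have hq1 : q ≤ 1 := by linarith [hwq.hi]
    have hwh := (hqA (1/2) Set.left_mem_uIcc).1
    obtain ⟨σ, k1, σ', k2, -, -, h3⟩ := hkey (1/2) n hwh r m hr hmdef hmn
      (LOW_ratio hc hC h54 L m hL (by omega))
    have hdiv : m / M2 = r := by
      rw [hmdef]; exact Nat.mul_div_cancel_left r (by omega)
    have hc' : ∀ (τ : Bool) (x : ℤ) (r : ℕ), ∀ v ∈ cell τ m x r, (m:ℤ) ≤ |v.2| := by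
      intro τ x r v hv
      have hv2 : v.2 = sy τ m := (mem_cell.mp hv).1
      rw [hv2]
      cases τ
      · unfold sy; simp
      · unfold sy; simp
    obtain ⟨I, hI⟩ : ∃ I : Set Vtx, I = cell σ m (2 * r * k1) r := ⟨_, rfl⟩
    obtain ⟨J, hJ⟩ : ∃ J : Set Vtx, J = cell σ' m (2 * r * k2) r := ⟨_, rfl⟩
    have hIJ : ∀ v ∈ I ∪ J, (m:ℤ) ≤ |v.2| := by
      rintro v (hv | hv)
      · rw [hI] at hv; exact hc' _ _ _ v hv
      · rw [hJ] at hv; exact hc' _ _ _ v hv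
    have h5 : TS (1/2) L m r (m / M1) σ k1 σ' k2 ≤
        ∑ e ∈ boxE (m / 4), PQ (1/2) (SR L m) (Pf (fun F : Finset Edg => Cn I J ↑F) e) := by
      unfold TS
      apply Finset.sum_le_sum
      intro e _
      apply Pr_mono (okq (by norm_num) (by norm_num))
      intro F _ hF
      rw [← Pv_iff, hI, hJ]
      refine Qev_Pv ?_ hF.1
      have : m / M2 ≤ m / M1 := Nat.div_le_div_left (by omega) (by omega)
      omega
    -- lower bound of `T(1/2)`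
    have h6 := (h54 (4 * L * m) (by
      have : 0 < 4 * L * m := by positivity
      omega)).1
    have e0 : (((4 * L * m : ℕ) : ℕ) : ℝ) ^ (-(5/4) : ℝ) =
        (4 * (L:ℝ)) ^ (-(5/4) : ℝ) * (m:ℝ) ^ (-(5/4) : ℝ) := by
      push_cast
      rw [Real.mul_rpow (by positivity) (by positivity)]
    have hm2 : (m:ℝ)^2 * (m:ℝ) ^ (-(5/4) : ℝ) = (m:ℝ) ^ (3/4 : ℝ) := by
      rw [← Real.rpow_natCast, ← Real.rpow_add hmpos]
      congr 1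
      norm_num
    set T : ℝ → ℝ := fun q => ∑ e ∈ boxE (m / 4), PQ q (SR L m)
      (Pf (fun F : Finset Edg => Cn I J ↑F) e) with hTdef
    have hTl : c2 * (m:ℝ) ^ (3/4 : ℝ) ≤ T (1/2) := by
      have j1 : (m:ℝ)^2 * (c * ((4 * (L:ℝ)) ^ (-(5/4) : ℝ) * (m:ℝ) ^ (-(5/4) : ℝ))) ≤
          C1 * T (1/2) := by
        rw [← e0]
        calc (m:ℝ)^2 * (c * (((4 * L * m : ℕ) : ℕ) : ℝ) ^ (-(5/4) : ℝ))
            ≤ (m:ℝ)^2 * a4 (1/2) (4 * L * m) := mul_le_mul_of_nonneg_left h6 (by positivity)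
          _ ≤ C1 * TS (1/2) L m r (m / M1) σ k1 σ' k2 := h3
          _ ≤ C1 * T (1/2) := mul_le_mul_of_nonneg_left h5 hC1.le
      rw [hc2, ← hm2]
      rw [div_mul_eq_mul_div, div_le_iff₀ hC1]
      calc _ = (m:ℝ)^2 * (c * ((4 * (L:ℝ)) ^ (-(5/4) : ℝ) * (m:ℝ) ^ (-(5/4) : ℝ))) := by ring
        _ ≤ C1 * T (1/2) := j1
        _ = _ := by ring
    have hlip := lip (f := T) (a := 1/2) (b := q)
      (B := C3 * A ^ 2 * (m:ℝ) ^ (3/2 : ℝ))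
      (fun t ht => hT t n (hqA t ht).1 A hA (hqA t ht).2 m (by omega) hmn' I J hIJ)
    have hup : T q ≤ (m:ℝ)^2 * a4 q (m / 2) :=
      T_upper hq0 hq1 (L := L) (m := m) (by omega) hL hIJ
    have hdiff : C3 * A ^ 2 * (m:ℝ) ^ (3/2 : ℝ) * |q - 1/2| ≤ c2 / 2 * (m:ℝ) ^ (3/4 : ℝ) := by
      have j1 : (n:ℝ) ^ (-(3/4 : ℝ)) ≤ (m:ℝ) ^ (-(3/4 : ℝ)) :=
        Real.rpow_le_rpow_of_nonpos hmpos (by exact_mod_cast hmn') (by norm_num)
      have j2 : (m:ℝ) ^ (3/2 : ℝ) * (m:ℝ) ^ (-(3/4 : ℝ)) = (m:ℝ) ^ (3/4 : ℝ) := by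
        rw [← Real.rpow_add hmpos]; congr 1; norm_num
      calc C3 * A ^ 2 * (m:ℝ) ^ (3/2 : ℝ) * |q - 1/2|
          ≤ C3 * A ^ 2 * (m:ℝ) ^ (3/2 : ℝ) * (κ2 * (m:ℝ) ^ (-(3/4 : ℝ))) := by
            apply mul_le_mul_of_nonneg_left _ (by positivity)
            exact hq.trans (mul_le_mul_of_nonneg_left j1 hκ2pos.le)
        _ = C3 * A^2 * κ2 * ((m:ℝ) ^ (3/2 : ℝ) * (m:ℝ) ^ (-(3/4 : ℝ))) := by ring
        _ = C3 * A^2 * κ2 * (m:ℝ) ^ (3/4 : ℝ) := by rw [j2]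
        _ ≤ _ := mul_le_mul_of_nonneg_right hκ22 (by positivity)
    have j1 := (abs_le.mp (hlip.trans hdiff)).1
    have j2 : c2 / 2 * (m:ℝ) ^ (3/4 : ℝ) ≤ (m:ℝ)^2 * a4 q (m / 2) := by linarith
    rw [← hm2] at j2
    have j3 : (m:ℝ)^2 * (c2 / 2 * (m:ℝ) ^ (-(5/4) : ℝ)) ≤ (m:ℝ)^2 * a4 q (m / 2) := by linarith
    exact le_of_mul_le_mul_left j3 (by positivity)
  refine ⟨c2 / 2 * (M2:ℝ) ^ (-(5/4 : ℝ)), κ2 * (4 * (L:ℝ) * M2) ^ (-(3/4 : ℝ)),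
    by positivity, by positivity, ?_⟩
  intro n hn q hq k hk hkn
  have hn' : 1 ≤ 4 * L * M2 * n := by
    have : 0 < 4 * L * M2 * n := by positivity
    omega
  have hq' : |q - 1/2| ≤ κ2 * ((4 * L * M2 * n : ℕ) : ℝ) ^ (-(3/4 : ℝ)) := by
    push_cast
    rw [Real.mul_rpow (by positivity) (by positivity)]
    linarith
  have h1 := main (4 * L * M2 * n) hn' q hq' k hk (by
    calc 4 * L * (M2 * k) = 4 * L * M2 * k := by ring
      _ ≤ 4 * L * M2 * n := Nat.mul_le_mul_left _ hkn)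
  have hw := (hst (4 * L * M2 * n) hn' q (hq'.trans (mul_le_mul_of_nonneg_right hκ21
    (by positivity)))).1
  have hq0 : 0 ≤ q := by linarith [hw.lo]
  have hq1 : q ≤ 1 := by linarith [hw.hi]
  have h2 : a4 q (M2 * k / 2) ≤ a4 q k := a4_anti hq0 hq1 hk (by
    have : 2 * k ≤ M2 * k := Nat.mul_le_mul_right _ (by omega)
    omega)
  have h3 : ((M2 * k : ℕ) : ℝ) ^ (-(5/4 : ℝ)) = (M2:ℝ) ^ (-(5/4 : ℝ)) * (k:ℝ) ^ (-(5/4 : ℝ)) := by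
    push_cast
    rw [Real.mul_rpow (by positivity) (by positivity)]
  rw [h3] at h1
  calc c2 / 2 * (M2:ℝ) ^ (-(5/4 : ℝ)) * (k:ℝ) ^ (-(5/4 : ℝ))
      = c2 / 2 * ((M2:ℝ) ^ (-(5/4 : ℝ)) * (k:ℝ) ^ (-(5/4 : ℝ))) := by ring
    _ ≤ a4 q (M2 * k / 2) := h1
    _ ≤ a4 q k := h2

end H985S
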