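import Pool.Agent.H985R4.SW.WTH

/-! The sharp critical window: rectangles inside the window (task NR). -/

set_option autoImplicit false

namespace H985S

open H974 H12S H973N Finset

theorem uIcc_half {p t : ℝ} (h : t ∈ Set.uIcc (1/2) p) : |t - 1/2| ≤ |p - 1/2| := by
  rcases le_total (1/2) p with h1 | h1
  · rw [Set.uIcc_of_le h1] at h
    rw [abs_of_nonneg (by linarith [h.1]), abs_of_nonneg (by linarith)]
    linarith [h.2]
  · rw [Set.uIcc_of_ge h1] at h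
    rw [abs_of_nonpos (by linarith [h.2]), abs_of_nonpos (by linarith)]
    linarith [h.1]

theorem nr_s (hST : St_STAB) (hHD : St_HD) : St_NR := by
  intro Λ hΛ η hη
  obtain ⟨κ, A, κ0, hκ, hA, hκ0, hst⟩ := hST
  obtain ⟨C, hC, hd⟩ := hHD κ hκ Λ hΛ
  have hA0 : 0 < A := by linarith
  have hCA : 0 < C * A := by positivity
  refine ⟨min κ0 (η / (C * A)), lt_min hκ0 (by positivity), ?_⟩
  intro n hn a b ha1 ha hb p hp
  have hnr : (1:ℝ) ≤ n := by exact_mod_cast hn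
  have hn0 : (0:ℝ) < n := by linarith
  have hX : 0 < (n:ℝ) ^ (-(3/4 : ℝ)) := by positivity
  have hp1 : |p - 1/2| ≤ κ0 * (n:ℝ) ^ (-(3/4 : ℝ)) :=
    hp.trans (mul_le_mul_of_nonneg_right (min_le_left _ _) hX.le)
  have hp2 : |p - 1/2| ≤ η / (C * A) * (n:ℝ) ^ (-(3/4 : ℝ)) :=
    hp.trans (mul_le_mul_of_nonneg_right (min_le_right _ _) hX.le)
  have hl := lip (f := fun q => hh q (a:ℤ) (b:ℤ)) (a := 1/2) (b := p)
    (B := C * A * (n:ℝ) ^ (3/4 : ℝ)) (by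
      intro t ht
      obtain ⟨hw, h4⟩ := hst n hn t ((uIcc_half ht).trans hp1)
      exact hd t n hw A hA h4 hn a b ha1 ha hb)
  refine hl.trans ?_
  have e : (n:ℝ) ^ (3/4 : ℝ) * (n:ℝ) ^ (-(3/4 : ℝ)) = 1 := by
    rw [← Real.rpow_add hn0]; norm_num
  calc C * A * (n:ℝ) ^ (3/4 : ℝ) * |p - 1/2|
      ≤ C * A * (n:ℝ) ^ (3/4 : ℝ) * (η / (C * A) * (n:ℝ) ^ (-(3/4 : ℝ))) :=
        mul_le_mul_of_nonneg_left hp2 (by positivity)
    _ = η * ((n:ℝ) ^ (3/4 : ℝ) * (n:ℝ) ^ (-(3/4 : ℝ))) := by field_simp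
    _ = η := by rw [e, mul_one]

end H985S
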