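import Pool.Agent.H985R4.SW.Defs

/-!
Sharp stability: RSW and the four-arm upper bound in the window of the exact size.
-/

set_option autoImplicit false
set_option maxHeartbeats 1000000

namespace H985S

open H974 H12S H973N Finset

/-- comparison of `(k+1)` and `x` for `k + 1 ≤ 2 x` -/
theorem STAB_cmp {x y : ℝ} (hx : 0 < x) (hy : 0 < y) (h : y ≤ 2 * x) :
    (1/3 : ℝ) * x ^ (-(5/4 : ℝ)) ≤ y ^ (-(5/4 : ℝ)) := by
  have j1 : (2 * x) ^ (-(5/4 : ℝ)) ≤ y ^ (-(5/4 : ℝ)) :=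
    Real.rpow_le_rpow_of_nonpos hy h (by norm_num)
  have j2 : (1/3 : ℝ) ≤ (2:ℝ) ^ (-(5/4 : ℝ)) := by
    have j3 : (2:ℝ) ^ (-(3/2 : ℝ)) ≤ (2:ℝ) ^ (-(5/4 : ℝ)) :=
      Real.rpow_le_rpow_of_exponent_le (by norm_num) (by norm_num)
    have j4 : (1/3 : ℝ) ≤ (2:ℝ) ^ (-(3/2 : ℝ)) := by
      have j5 : ((2:ℝ) ^ (-(3/2 : ℝ)))^2 = 1/8 := by
        rw [← Real.rpow_natCast, ← Real.rpow_mul (by norm_num)]
        rw [show (-(3/2:ℝ)) * ((2:ℕ):ℝ) = ((-3 : ℤ) : ℝ) by norm_num, Real.rpow_intCast]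
        norm_num
      have j6 : 0 < (2:ℝ) ^ (-(3/2 : ℝ)) := by positivity
      nlinarith
    exact j4.trans j3
  rw [Real.mul_rpow (by norm_num) hx.le] at j1
  exact (mul_le_mul_of_nonneg_right j2 (by positivity)).trans j1

theorem STAB_third : 1 ≤ 4 * (3:ℝ) ^ (-(5/4 : ℝ)) := by
  have j7 : ((3:ℝ) ^ (-(5/4 : ℝ)))^4 = 1/243 := by
    rw [← Real.rpow_natCast, ← Real.rpow_mul (by norm_num)]
    rw [show (-(5/4:ℝ)) * ((4:ℕ):ℝ) = ((-5 : ℤ) : ℝ) by norm_num, Real.rpow_intCast]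
    norm_num
  have j8 : 0 < (3:ℝ) ^ (-(5/4 : ℝ)) := by positivity
  have j9 : 1/4 ≤ (3:ℝ) ^ (-(5/4 : ℝ)) := by
    by_contra hcon
    push Not at hcon
    have : ((3:ℝ) ^ (-(5/4 : ℝ)))^4 < (1/4)^4 := pow_lt_pow_left₀ hcon j8.le (by norm_num)
    rw [j7] at this
    norm_num at this
  linarith

/-- One step of the bootstrap, four-arm part. -/
theorem STAB_step (hTD : St_TD) (hKEY : St_KEY) {κ : ℝ} (hκ : 0 < κ) :
    ∃ A κ2 : ℝ, 1 ≤ A ∧ 0 < κ2 ∧ (∀ k : ℕ, a4 (1/2) k ≤ A * ((k:ℝ) + 1) ^ (-(5/4 : ℝ))) ∧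
      ∀ (q : ℝ) (n : ℕ), 1 ≤ n → |q - 1/2| ≤ κ2 * (n:ℝ) ^ (-(3/4 : ℝ)) →
      (∀ t ∈ Set.uIcc (1/2) q, H12S.Win t κ n ∧ A4s t A n) →
      ∀ k ≤ n, a4 q k < A * ((k:ℝ) + 1) ^ (-(5/4 : ℝ)) := by
  obtain ⟨L, C, θ, k0, hL, hC, hθ, hθL, hk⟩ := hKEY κ hκ
  obtain ⟨C1, hC1, hT⟩ := hTD κ hκ L hL
  obtain ⟨cc, Cc, hcc, hCc0, hCc⟩ := Pool.Agent.H988R6.a4_sharp
  set Cc' : ℝ := max Cc 1 with hCc'
  have hCc1 : 1 ≤ Cc' := le_max_right _ _
  have hLr : (2:ℝ) ≤ L := by exact_mod_cast hL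
  set G : ℝ := (8 * (L:ℝ)) ^ (5/4 : ℝ) with hG
  have hG0 : 0 < G := by rw [hG]; positivity
  set K0 : ℕ := max k0 16 with hK0
  set A0 : ℝ := 3 * ((K0:ℝ) + 1)^2 with hA0
  set A : ℝ := A0 + 3 * Cc' + 40 * G * C * Cc' with hA
  have hK0r : (0:ℝ) ≤ K0 := Nat.cast_nonneg _
  have hA03 : 3 ≤ A0 := by rw [hA0]; nlinarith
  have hGC : 0 < 40 * G * C * Cc' := by positivity
  have hA3 : 3 ≤ A := by rw [hA]; linarith
  set κ2 : ℝ := 1 / (20 * G * C * C1 * A) with hκ2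
  have hκ20 : 0 < κ2 := by rw [hκ2]; positivity
  refine ⟨A, κ2, by linarith, hκ20, ?_, ?_⟩
  · intro k
    rcases Nat.eq_zero_or_pos k with h | h
    · subst h
      have i1 := a4_le_two' (q := 1/2) (by norm_num) (by norm_num) 0
      simp only [Nat.cast_zero, zero_add, Real.one_rpow, mul_one]
      linarith
    · have hk1 : (1:ℝ) ≤ k := by exact_mod_cast h
      have i1 : a4 (1/2) k ≤ Cc * (k:ℝ) ^ (-(5/4) : ℝ) := (hCc k h).2
      have i2 := STAB_cmp (x := (k:ℝ)) (y := (k:ℝ) + 1) (by linarith) (by linarith) (by linarith)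
      have i4 : Cc * (k:ℝ) ^ (-(5/4 : ℝ)) ≤ Cc' * (k:ℝ) ^ (-(5/4 : ℝ)) :=
        mul_le_mul_of_nonneg_right (le_max_left _ _) (by positivity)
      have i6 : 3 * Cc' * ((1/3 : ℝ) * (k:ℝ) ^ (-(5/4 : ℝ))) ≤
          3 * Cc' * ((k:ℝ) + 1) ^ (-(5/4 : ℝ)) := mul_le_mul_of_nonneg_left i2 (by linarith)
      have i7 : 3 * Cc' * ((k:ℝ) + 1) ^ (-(5/4 : ℝ)) ≤ A * ((k:ℝ) + 1) ^ (-(5/4 : ℝ)) :=
        mul_le_mul_of_nonneg_right (by linarith) (by positivity)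
      have i8 : 3 * Cc' * ((1/3 : ℝ) * (k:ℝ) ^ (-(5/4 : ℝ))) = Cc' * (k:ℝ) ^ (-(5/4 : ℝ)) := by ring
      linarith
  intro q n hn hq hseg k hkn
  have hwq := hseg q Set.right_mem_uIcc
  have hq0 : 0 ≤ q := by linarith [hwq.1.lo]
  have hq1 : q ≤ 1 := by linarith [hwq.1.hi]
  have hnr : (1:ℝ) ≤ n := by exact_mod_cast hn
  rcases Nat.lt_or_ge k K0 with hlt | hge
  · -- small scales
    have i1 := a4_le_two' hq0 hq1 k
    have hkr : ((k:ℝ) + 1) ≤ (K0:ℝ) + 1 := by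
      have : (k:ℝ) ≤ K0 := by exact_mod_cast hlt.le
      linarith
    have hk1r : (1:ℝ) ≤ (k:ℝ) + 1 := by
      have : (0:ℝ) ≤ k := Nat.cast_nonneg _
      linarith
    have i2 : ((k:ℝ) + 1) ^ (-(2:ℝ)) ≤ ((k:ℝ) + 1) ^ (-(5/4 : ℝ)) :=
      Real.rpow_le_rpow_of_exponent_le hk1r (by norm_num)
    have i3 : ((K0:ℝ) + 1) ^ (-(2:ℝ)) ≤ ((k:ℝ) + 1) ^ (-(2:ℝ)) :=
      Real.rpow_le_rpow_of_nonpos (by linarith) hkr (by norm_num)
    have i4 : 3 ≤ A * ((K0:ℝ) + 1) ^ (-(2:ℝ)) := by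
      have i6 : A0 * ((K0:ℝ) + 1) ^ (-(2:ℝ)) = 3 := by
        rw [hA0, Real.rpow_neg (by linarith), Real.rpow_two]
        field_simp
      rw [← i6]
      exact mul_le_mul_of_nonneg_right (by linarith) (by positivity)
    have i5 : A * ((K0:ℝ) + 1) ^ (-(2:ℝ)) ≤ A * ((k:ℝ) + 1) ^ (-(5/4 : ℝ)) :=
      mul_le_mul_of_nonneg_left (i3.trans i2) (by linarith)
    linarith
  · -- large scales
    have hkk0 : k0 ≤ k := le_trans (le_max_left _ _) hge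
    obtain ⟨m, hm512, hmk4, hmk8, I, J, hIJ, hbound⟩ := hk q n hwq.1 k hkk0 hkn
    have hLm : m ≤ L * m := Nat.le_mul_of_pos_left _ (by omega)
    have hmk' : m ≤ k := by nlinarith
    have hmn : m ≤ n := hmk'.trans hkn
    have hmr : (512:ℝ) ≤ m := by exact_mod_cast hm512
    have hmpos : (0:ℝ) < m := by linarith
    set X : ℝ := (m:ℝ) ^ (-(5/4 : ℝ)) with hX
    have hX0 : 0 < X := by rw [hX]; positivity
    -- Lipschitz bound
    have hlip := lip (f := fun q => ∑ e ∈ boxE (m / 4), PQ q (SR L m)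
        (Pf (fun F : Finset Edg => Cn I J ↑F) e)) (a := 1/2) (b := q)
        (B := C1 * A ^ 2 * (m:ℝ) ^ (3/2 : ℝ))
        (fun t ht => hT t n (hseg t ht).1 A (by linarith) (hseg t ht).2 m (by omega) hmn I J hIJ)
    have hup := T_upper (q := 1/2) (by norm_num) (by norm_num) (L := L) (m := m) (by omega) hL hIJ
    have hcr : a4 (1/2) (m / 2) ≤ Cc' * (4 * X) := by
      have j1 : a4 (1/2) (m / 2) ≤ Cc * ((m / 2 : ℕ) : ℝ) ^ (-(5/4) : ℝ) := (hCc (m / 2) (by omega)).2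
      have j2 : (m:ℝ) / 3 ≤ ((m / 2 : ℕ) : ℝ) := by
        have : m ≤ 3 * (m / 2) := by omega
        have : (m:ℝ) ≤ 3 * ((m / 2 : ℕ) : ℝ) := by exact_mod_cast this
        linarith
      have j3 : ((m / 2 : ℕ) : ℝ) ^ (-(5/4 : ℝ)) ≤ ((m:ℝ) / 3) ^ (-(5/4 : ℝ)) :=
        Real.rpow_le_rpow_of_nonpos (by linarith) j2 (by norm_num)
      have j4 : ((m:ℝ) / 3) ^ (-(5/4 : ℝ)) ≤ 4 * X := by
        rw [Real.div_rpow hmpos.le (by norm_num), div_le_iff₀ (by positivity)]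
        have j5 := STAB_third
        nlinarith
      calc a4 (1/2) (m / 2) ≤ Cc * ((m / 2 : ℕ) : ℝ) ^ (-(5/4 : ℝ)) := j1
        _ ≤ Cc' * ((m / 2 : ℕ) : ℝ) ^ (-(5/4 : ℝ)) :=
          mul_le_mul_of_nonneg_right (le_max_left _ _) (by positivity)
        _ ≤ _ := mul_le_mul_of_nonneg_left (j3.trans j4) (by linarith)
    have hm34 : (m:ℝ)^2 * X = (m:ℝ) ^ (3/4 : ℝ) := by
      rw [hX, ← Real.rpow_natCast, ← Real.rpow_add hmpos]
      congr 1
      push_cast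
      norm_num
    have hdiff : C1 * A ^ 2 * (m:ℝ) ^ (3/2 : ℝ) * |q - 1/2| ≤ C1 * A ^ 2 * κ2 * ((m:ℝ)^2 * X) := by
      have j1 : (n:ℝ) ^ (-(3/4 : ℝ)) ≤ (m:ℝ) ^ (-(3/4 : ℝ)) :=
        Real.rpow_le_rpow_of_nonpos hmpos (by exact_mod_cast hmn) (by norm_num)
      have j2 : (m:ℝ) ^ (3/2 : ℝ) * (m:ℝ) ^ (-(3/4 : ℝ)) = (m:ℝ) ^ (3/4 : ℝ) := by
        rw [← Real.rpow_add hmpos]; congr 1; norm_num
      have j3 : 0 ≤ C1 * A ^ 2 * (m:ℝ) ^ (3/2 : ℝ) := by positivity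
      calc C1 * A ^ 2 * (m:ℝ) ^ (3/2 : ℝ) * |q - 1/2|
          ≤ C1 * A ^ 2 * (m:ℝ) ^ (3/2 : ℝ) * (κ2 * (m:ℝ) ^ (-(3/4 : ℝ))) :=
            mul_le_mul_of_nonneg_left (hq.trans (mul_le_mul_of_nonneg_left j1 hκ20.le)) j3
        _ = C1 * A ^ 2 * κ2 * ((m:ℝ) ^ (3/2 : ℝ) * (m:ℝ) ^ (-(3/4 : ℝ))) := by ring
        _ = _ := by rw [j2, hm34]
    have hTq : ∑ e ∈ boxE (m / 4), PQ q (SR L m) (Pf (fun F : Finset Edg => Cn I J ↑F) e) ≤
        (m:ℝ)^2 * (Cc' * (4 * X)) + C1 * A ^ 2 * κ2 * ((m:ℝ)^2 * X) := by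
      have j1 := (abs_le.mp (hlip.trans hdiff)).2
      have j2 : (m:ℝ)^2 * a4 (1/2) (m / 2) ≤ (m:ℝ)^2 * (Cc' * (4 * X)) :=
        mul_le_mul_of_nonneg_left hcr (by positivity)
      linarith
    -- the error term
    have h8 : a4 q (m / 8) ≤ A * (8 ^ (5/4 : ℝ) * X) := by
      have j1 := hwq.2 (m / 8) (by omega)
      have j2 : (m:ℝ) / 8 ≤ ((m / 8 : ℕ) : ℝ) + 1 := by
        have : m ≤ 8 * (m / 8) + 8 := by omega
        have : (m:ℝ) ≤ 8 * ((m / 8 : ℕ) : ℝ) + 8 := by exact_mod_cast this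
        linarith
      have j3 : (((m / 8 : ℕ) : ℝ) + 1) ^ (-(5/4 : ℝ)) ≤ ((m:ℝ) / 8) ^ (-(5/4 : ℝ)) :=
        Real.rpow_le_rpow_of_nonpos (by linarith) j2 (by norm_num)
      have j4 : ((m:ℝ) / 8) ^ (-(5/4 : ℝ)) = 8 ^ (5/4 : ℝ) * X := by
        rw [Real.div_rpow hmpos.le (by norm_num), Real.rpow_neg (by norm_num : (0:ℝ) ≤ 8), div_inv_eq_mul,
          mul_comm]
      rw [j4] at j3
      exact j1.trans (mul_le_mul_of_nonneg_left j3 (by linarith))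
    have hmsq : (0:ℝ) < (m:ℝ)^2 := by positivity
    have hmain : a4 q k ≤ (4 * C * Cc' + C * C1 * A ^ 2 * κ2 + θ * 8 ^ (5/4 : ℝ) * A) * X := by
      have j1 : C * (∑ e ∈ boxE (m / 4), PQ q (SR L m)
          (Pf (fun F : Finset Edg => Cn I J ↑F) e)) ≤
          C * ((m:ℝ)^2 * (Cc' * (4 * X)) + C1 * A ^ 2 * κ2 * ((m:ℝ)^2 * X)) :=
        mul_le_mul_of_nonneg_left hTq hC.le
      have j2 : θ * ((m:ℝ) ^ 2 * a4 q (m / 8)) ≤ θ * ((m:ℝ) ^ 2 * (A * (8 ^ (5/4 : ℝ) * X))) :=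
        mul_le_mul_of_nonneg_left (mul_le_mul_of_nonneg_left h8 hmsq.le) hθ.le
      have j3 : (m:ℝ)^2 * a4 q k ≤ (m:ℝ)^2 *
          ((4 * C * Cc' + C * C1 * A ^ 2 * κ2 + θ * 8 ^ (5/4 : ℝ) * A) * X) := by
        refine hbound.trans ((add_le_add j1 j2).trans (le_of_eq ?_))
        ring
      exact le_of_mul_le_mul_left j3 hmsq
    -- comparison with `k + 1`
    have hkm : (k:ℝ) + 1 ≤ 2 * (8 * L * m) := by
      have j1 : (k:ℝ) ≤ 8 * L * m := by exact_mod_cast hmk8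
      have j2 : (1:ℝ) ≤ 8 * L * m := by nlinarith
      linarith
    have hcmp := STAB_cmp (x := 8 * (L:ℝ) * m) (y := (k:ℝ) + 1) (by positivity)
      (by positivity) hkm
    have hGX : (8 * (L:ℝ) * m) ^ (-(5/4 : ℝ)) = G⁻¹ * X := by
      rw [Real.mul_rpow (by positivity) hmpos.le, Real.rpow_neg (by positivity), hG]
    rw [hGX] at hcmp
    have hG8 : θ * 8 ^ (5/4 : ℝ) * G ≤ 1/8 := by
      have j1 : (8:ℝ) ^ (5/4 : ℝ) * G = (64 * (L:ℝ)) ^ (5/4 : ℝ) := by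
        rw [hG, ← Real.mul_rpow (by norm_num) (by positivity)]
        congr 1
        ring
      rw [mul_assoc, j1]
      exact hθL
    have hκA : G * (C * C1 * A ^ 2 * κ2) = A / 20 := by
      rw [hκ2]
      field_simp
    have hGA : G * (4 * C * Cc') ≤ A / 10 := by
      have : A / 10 = A0 / 10 + 3 * Cc' / 10 + 4 * G * C * Cc' := by rw [hA]; ring
      rw [this]
      nlinarith
    have hfinal : G * (4 * C * Cc' + C * C1 * A ^ 2 * κ2 + θ * 8 ^ (5/4 : ℝ) * A) < A / 3 := by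
      have j1 : G * (θ * 8 ^ (5/4 : ℝ) * A) ≤ A / 8 := by
        have : G * (θ * 8 ^ (5/4 : ℝ) * A) = (θ * 8 ^ (5/4 : ℝ) * G) * A := by ring
        rw [this]
        have := mul_le_mul_of_nonneg_right hG8 (by linarith : (0:ℝ) ≤ A)
        linarith
      rw [mul_add, mul_add]
      linarith
    have hlast : (4 * C * Cc' + C * C1 * A ^ 2 * κ2 + θ * 8 ^ (5/4 : ℝ) * A) * X <
        A * (1/3 * (G⁻¹ * X)) := by
      have j1 : (4 * C * Cc' + C * C1 * A ^ 2 * κ2 + θ * 8 ^ (5/4 : ℝ) * A) < A / 3 * G⁻¹ := by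
        rw [← div_eq_mul_inv, lt_div_iff₀ hG0, mul_comm]
        exact hfinal
      have j2 := mul_lt_mul_of_pos_right j1 hX0
      have j3 : A / 3 * G⁻¹ * X = A * (1/3 * (G⁻¹ * X)) := by ring
      rw [← j3]
      exact j2
    exact lt_of_le_of_lt hmain (lt_of_lt_of_le hlast (mul_le_mul_of_nonneg_left hcmp (by linarith)))

/-- STABILITY of the four-arm upper bound and of RSW, sharp form. -/
theorem stab_s (hTD : St_TD) (hHD : St_HD) (hKEY : St_KEY) : St_STAB := by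
  obtain ⟨κ1, hκ1, hwin⟩ := H973N.win_half
  have hκ1' : κ1 ≤ 1/2 := (hwin 1).kle
  have hκ : 0 < κ1 / 2 := by linarith
  obtain ⟨A, κ2, hA, hκ2, hAcrit, hstep⟩ := STAB_step hTD hKEY hκ
  obtain ⟨C2, hC2, hhd⟩ := hHD (κ1 / 2) hκ 16 (by norm_num)
  set κ0 : ℝ := min κ2 (min (1/4) (κ1 / (8 * (C2 * A)))) with hκ0
  have hCA : 0 < C2 * A := by positivity
  have hκ00 : 0 < κ0 := by rw [hκ0]; positivity
  have hκ01 : κ0 ≤ κ2 := min_le_left _ _
  have hκ02 : κ0 ≤ 1/4 := (min_le_right _ _).trans (min_le_left _ _)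
  have hκ03 : κ0 ≤ κ1 / (8 * (C2 * A)) := (min_le_right _ _).trans (min_le_right _ _)
  refine ⟨κ1 / 2, A, κ0, hκ, hA, hκ00, ?_⟩
  intro n hn q hq
  have hnr : (1:ℝ) ≤ n := by exact_mod_cast hn
  have hn1 : (n:ℝ) ^ (-(3/4 : ℝ)) ≤ 1 := Real.rpow_le_one_of_one_le_of_nonpos hnr (by norm_num)
  have hn0 : 0 < (n:ℝ) ^ (-(3/4 : ℝ)) := by positivity
  set δ : ℝ := κ0 * (n:ℝ) ^ (-(3/4 : ℝ)) with hδ
  have hδ0 : 0 < δ := by positivity
  have hδ4 : δ ≤ 1/4 := by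
    rw [hδ]; nlinarith
  -- the family of constraints
  set g : Bool × (Fin (n+1) ⊕ Fin (n+1)) → ℝ → ℝ := fun i s =>
    match i.2 with
    | Sum.inl k => a4 (qs i.1 s) k - A * (((k:ℕ):ℝ) + 1) ^ (-(5/4 : ℝ))
    | Sum.inr h => if (h:ℕ) = 0 then -1 else κ1 / 2 - hh (qs i.1 s) (16 * (h:ℕ)) (h:ℕ) with hg
  have hgcont : ∀ i, Continuous (g i) := by
    rintro ⟨τ, k | h⟩
    · simp only [hg]
      apply Continuous.sub _ continuous_const
      unfold a4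
      exact ((cont_Pr _ _).comp (cont_qs τ)).add ((cont_Pr _ _).comp (cont_qs τ))
    · simp only [hg]
      split_ifs
      · exact continuous_const
      · apply Continuous.sub continuous_const
        exact (cont_Pr _ _).comp (cont_qs τ)
  -- meaning of the constraints
  have hmean : ∀ s, 0 ≤ s → s ≤ δ → (∀ i, g i s ≤ 0) → ∀ τ : Bool,
      H12S.Win (qs τ s) (κ1 / 2) n ∧ A4s (qs τ s) A n := by
    intro s hs hsδ hgs τ
    have hwin' : ∀ τ : Bool, ∀ h : ℕ, 1 ≤ h → h ≤ n → κ1 / 2 ≤ hh (qs τ s) (16 * h) h := by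
      intro τ h h1 h2
      have := hgs (τ, Sum.inr ⟨h, by omega⟩)
      simp only [hg] at this
      rw [if_neg (by omega)] at this
      linarith
    refine ⟨⟨hκ, by linarith, ?_, ?_, hwin' τ, ?_⟩, ?_⟩
    · have := abs_qs (τ := τ) hs
      have := (abs_le.mp this.le).1
      linarith
    · have := abs_qs (τ := τ) hs
      have := (abs_le.mp this.le).2
      linarith
    · intro h h1 h2
      rw [qs_flip]
      exact hwin' (!τ) h h1 h2
    · intro k hk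
      have := hgs (τ, Sum.inl ⟨k, by omega⟩)
      simp only [hg] at this
      linarith
  -- constraints hold strictly at `0`
  have hstrict : ∀ t, 0 ≤ t → t ≤ δ → (∀ s, 0 ≤ s → s ≤ t → ∀ τ : Bool,
      H12S.Win (qs τ s) (κ1 / 2) n ∧ A4s (qs τ s) A n) → ∀ i, g i t < 0 := by
    intro t ht htδ hall
    rintro ⟨τ, k | h⟩
    · simp only [hg]
      have hseg : ∀ t' ∈ Set.uIcc (1/2) (qs τ t), H12S.Win t' (κ1 / 2) n ∧ A4s t' A n := by
        intro t' ht'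
        obtain ⟨s', h1, h2, rfl⟩ := uIcc_qs ht ht'
        exact hall s' h1 h2 τ
      have h3 := hstep (qs τ t) n hn (by
        rw [abs_qs ht]
        refine htδ.trans ?_
        rw [hδ]
        exact mul_le_mul_of_nonneg_right hκ01 hn0.le) hseg k (by have := k.2; omega)
      linarith
    · simp only [hg]
      split_ifs with h0
      · norm_num
      · have h1 : 1 ≤ (h:ℕ) := by omega
        have h2 : (h:ℕ) ≤ n := by have := h.2; omega
        have hlip := lip (f := fun q => hh q (16 * ((h:ℕ):ℤ)) ((h:ℕ):ℤ)) (a := 1/2) (b := qs τ t)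
          (B := C2 * A * (n:ℝ) ^ (3/4 : ℝ)) (by
            intro t' ht'
            obtain ⟨s', h3, h4, rfl⟩ := uIcc_qs ht ht'
            obtain ⟨hw, hA4⟩ := hall s' h3 h4 τ
            have h5 := hhd (qs τ s') n hw A hA hA4 hn (16 * (h:ℕ)) (h:ℕ) (by omega) (by omega)
              (by omega)
            push_cast at h5
            exact h5)
        rw [abs_qs ht] at hlip
        have h3 := (hwin h).pri h h1 le_rfl
        have h4 : C2 * A * (n:ℝ) ^ (3/4 : ℝ) * t ≤ κ1 / 4 := by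
          have h6 : (n:ℝ) ^ (3/4 : ℝ) * (n:ℝ) ^ (-(3/4 : ℝ)) = 1 := by
            rw [← Real.rpow_add (by linarith)]
            simp
          have h7 : (n:ℝ) ^ (3/4 : ℝ) * t ≤ κ0 := by
            calc (n:ℝ) ^ (3/4 : ℝ) * t ≤ (n:ℝ) ^ (3/4 : ℝ) * δ :=
                  mul_le_mul_of_nonneg_left htδ (by positivity)
              _ = κ0 * ((n:ℝ) ^ (3/4 : ℝ) * (n:ℝ) ^ (-(3/4 : ℝ))) := by rw [hδ]; ring
              _ = κ0 := by rw [h6, mul_one]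
          have h8 : C2 * A * κ0 ≤ κ1 / 8 := by
            have := mul_le_mul_of_nonneg_left hκ03 hCA.le
            refine this.trans (le_of_eq ?_)
            field_simp
          calc C2 * A * (n:ℝ) ^ (3/4 : ℝ) * t = C2 * A * ((n:ℝ) ^ (3/4 : ℝ) * t) := by ring
            _ ≤ C2 * A * κ0 := mul_le_mul_of_nonneg_left h7 hCA.le
            _ ≤ κ1 / 8 := h8
            _ ≤ κ1 / 4 := by linarith
        have h5 := (abs_le.mp hlip).1
        linarith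
  have hconc : ∀ t, 0 ≤ t → t ≤ δ → ∀ i, g i t < 0 := by
    apply bootstrap g δ hgcont
    · apply hstrict 0 le_rfl hδ0.le
      intro s hs1 hs2 τ
      have hs0 : s = 0 := le_antisymm hs2 hs1
      subst hs0
      have hq0 : qs τ 0 = 1/2 := by cases τ <;> simp [qs]
      rw [hq0]
      refine ⟨⟨hκ, by linarith, by norm_num, by norm_num, ?_, ?_⟩, ?_⟩
      · intro h h1 h2
        exact le_trans (by linarith) ((hwin n).pri h h1 h2)
      · intro h h1 h2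
        exact le_trans (by linarith) ((hwin n).dua h h1 h2)
      · exact fun k _ => hAcrit k
    · intro t ht htδ hall
      apply hstrict t ht htδ
      intro s hs1 hs2 τ
      exact hmean s hs1 (hs2.trans htδ) (hall s hs1 hs2) τ
  -- conclusion
  obtain ⟨τ, hτ⟩ : ∃ τ : Bool, q = qs τ |q - 1/2| := by
    rcases le_total (1/2) q with h | h
    · refine ⟨true, ?_⟩
      unfold qs
      rw [abs_of_nonneg (by linarith)]
      simp
    · refine ⟨false, ?_⟩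
      unfold qs
      rw [abs_of_nonpos (by linarith)]
      simp only [Bool.false_eq_true, if_false]
      ring
  have hfin := hmean |q - 1/2| (abs_nonneg _) hq (fun i => (hconc _ (abs_nonneg _) hq i).le) τ
  rw [← hτ] at hfin
  exact hfin

end H985S
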