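import Pool.Agent.H985R4.SW.Defs

/-!
Sharp critical window, task W2: the end of the window, sharp form.
-/

set_option autoImplicit false

namespace H985S

open H974 H12S H973N Finset

theorem w2_s (hWDL : St_WDL) : St_W2 := by
  intro κ hκ hκ2
  obtain ⟨κh, hκh, hhalf⟩ := H12S.win_half
  set κ' : ℝ := min κ κh with hκ'
  have hκ'0 : 0 < κ' := lt_min hκ hκh
  obtain ⟨c, β, κ0, Y0, hc, hβ, hκ0, hY0, hmain⟩ := hWDL κ' hκ'0
  set Y : ℝ := max (max Y0 2) ((8 / (c * κ0)) ^ (1 / β)) with hY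
  have hYY0 : Y0 ≤ Y := (le_max_left _ _).trans (le_max_left _ _)
  have hY2 : 2 ≤ Y := (le_max_right _ _).trans (le_max_left _ _)
  have hY0' : 0 < Y := by linarith
  have hYβ : 8 / (c * κ0) ≤ Y ^ β := by
    have i1 : (8 / (c * κ0)) ^ (1 / β) ≤ Y := le_max_right _ _
    have i2 : ((8 / (c * κ0)) ^ (1 / β)) ^ β ≤ Y ^ β :=
      Real.rpow_le_rpow (by positivity) i1 hβ.le
    rwa [← Real.rpow_mul (by positivity), one_div_mul_cancel hβ.ne', Real.rpow_one] at i2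
  have hbig : 8 ≤ c * Y ^ β * κ0 := by
    rw [div_le_iff₀ (by positivity)] at hYβ
    linarith
  obtain ⟨N0, hN0⟩ := hmain Y hYY0
  set M : ℝ := max (N0:ℝ) 2 with hM
  have hM2 : 2 ≤ M := le_max_right _ _
  have hMN : (N0:ℝ) ≤ M := le_max_left _ _
  have hM0 : 0 < M := by linarith
  refine ⟨2 * Y * κ0 ^ (4/3 : ℝ), min (1/4) (κ0 * M ^ (-(3/4 : ℝ))), by positivity,
    lt_min (by norm_num) (by positivity), ?_⟩
  intro q hq1 hq2
  set h : ℝ := q - 1/2 with hhd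
  have hpos : 0 < h := by linarith
  have hlt : h < min (1/4) (κ0 * M ^ (-(3/4 : ℝ))) := by linarith
  have hlt1 : h < 1/4 := lt_of_lt_of_le hlt (min_le_left _ _)
  have hlt2 : h < κ0 * M ^ (-(3/4 : ℝ)) := lt_of_lt_of_le hlt (min_le_right _ _)
  set y : ℝ := (κ0 / h) ^ (4/3 : ℝ) with hy
  have hkh : 0 < κ0 / h := by positivity
  have hypos : 0 < y := by positivity
  have hy34 : y ^ (3/4 : ℝ) = κ0 / h := by
    rw [hy, ← Real.rpow_mul hkh.le]
    norm_num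
  have hyM : M ≤ y := by
    have i1 : M ^ (3/4 : ℝ) ≤ κ0 / h := by
      rw [le_div_iff₀ hpos]
      have j2 : 0 < M ^ (3/4 : ℝ) := by positivity
      rw [Real.rpow_neg hM0.le] at hlt2
      calc M ^ (3/4 : ℝ) * h ≤ M ^ (3/4 : ℝ) * (κ0 * (M ^ (3/4 : ℝ))⁻¹) :=
            mul_le_mul_of_nonneg_left hlt2.le j2.le
        _ = κ0 * (M ^ (3/4 : ℝ) * (M ^ (3/4 : ℝ))⁻¹) := by ring
        _ = κ0 := by rw [mul_inv_cancel₀ j2.ne', mul_one]
    have i2 : (M ^ (3/4 : ℝ)) ^ (4/3 : ℝ) ≤ y :=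
      Real.rpow_le_rpow (by positivity) i1 (by norm_num)
    rw [← Real.rpow_mul hM0.le] at i2
    norm_num at i2
    exact i2
  set n1 : ℕ := ⌊y⌋₊ with hn1
  have hn1y : (n1:ℝ) ≤ y := Nat.floor_le hypos.le
  have hyn1 : y < n1 + 1 := Nat.lt_floor_add_one y
  have hN01 : N0 ≤ n1 := by
    rw [hn1]
    exact Nat.le_floor (hMN.trans hyM)
  have hn11 : (1:ℝ) ≤ n1 := by linarith
  have hn1pos : (0:ℝ) < n1 := by linarith
  set n : ℕ := ⌈Y * n1⌉₊ with hn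
  have hYn1 : 1 ≤ Y * n1 := by nlinarith
  have hnlo : Y * n1 ≤ n := Nat.le_ceil _
  have hnhi : (n:ℝ) ≤ 2 * Y * n1 := by
    have := (Nat.ceil_lt_add_one (a := Y * (n1:ℝ)) (by positivity)).le
    rw [← hn] at this
    linarith
  refine ⟨n, ?_, ?_⟩
  · calc (n:ℝ) ≤ 2 * Y * n1 := hnhi
      _ ≤ 2 * Y * y := mul_le_mul_of_nonneg_left hn1y (by positivity)
      _ = 2 * Y * κ0 ^ (4/3 : ℝ) * h ^ (-(4/3 : ℝ)) := by
          rw [hy, Real.div_rpow hκ0.le hpos.le, Real.rpow_neg hpos.le]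
          ring
  · intro hW
    have hq0 : q ≤ 1 := by linarith [hW.hi]
    have hWs : ∀ t ∈ Set.Icc (1/2) q, H12S.Win t κ' n := by
      intro t ht
      have hwh := hhalf n
      refine ⟨hκ'0, (min_le_left _ _).trans hκ2, by linarith [ht.1], by linarith [ht.2, hW.hi],
        ?_, ?_⟩
      · intro k k1 k2
        calc κ' ≤ κh := min_le_right _ _
          _ ≤ hh (1/2) (16 * k) k := hwh.pri k k1 k2
          _ ≤ _ := hh_mono_param (by norm_num) ht.1 (by linarith [ht.2]) _ _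
      · intro k k1 k2
        calc κ' ≤ κ := min_le_left _ _
          _ ≤ hh (1 - q) (16 * k) k := hW.dua k k1 k2
          _ ≤ _ := hh_mono_param (by linarith) (by linarith [ht.2]) (by linarith [ht.1]) _ _
    have hwin : h ≤ κ0 * (n1:ℝ) ^ (-(3/4 : ℝ)) := by
      have i1 : (n1:ℝ) ^ (3/4 : ℝ) ≤ κ0 / h := by
        rw [← hy34]
        exact Real.rpow_le_rpow hn1pos.le hn1y (by norm_num)
      rw [le_div_iff₀ hpos] at i1
      rw [Real.rpow_neg hn1pos.le, ← div_eq_mul_inv, le_div_iff₀ (by positivity)]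
      linarith
    have hlb : ∀ t ∈ Set.Icc (1/2) q,
        (c * Y ^ β * (n1:ℝ) ^ (3/4 : ℝ)) * ((n:ℝ) + 1) ^ 2 ≤ WD t n := by
      intro t ht
      refine hN0 n1 hN01 n hnlo hnhi t ?_ (hWs t ht)
      rw [abs_of_nonneg (by linarith [ht.1])]
      refine le_trans ?_ hwin
      linarith [ht.2]
    have hint := WD_int (by norm_num) hq1.le hq0 n hlb
    have hnn : 0 < ((n:ℝ) + 1) ^ 2 := by positivity
    have hle1 : (c * Y ^ β * (n1:ℝ) ^ (3/4 : ℝ)) * h ≤ 1 := by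
      have : ((c * Y ^ β * (n1:ℝ) ^ (3/4 : ℝ)) * h) * ((n:ℝ) + 1) ^ 2 ≤ 1 * ((n:ℝ) + 1) ^ 2 := by
        rw [one_mul]
        calc _ = (c * Y ^ β * (n1:ℝ) ^ (3/4 : ℝ)) * ((n:ℝ) + 1) ^ 2 * (q - 1/2) := by
              rw [hhd]; ring
          _ ≤ _ := hint
      exact le_of_mul_le_mul_right this hnn
    -- `n1 ^ (3/4) * h` is not too small
    have hlow : κ0 / 2 ≤ (n1:ℝ) ^ (3/4 : ℝ) * h := by
      have i1 : y ^ (3/4 : ℝ) ≤ (2 * (n1:ℝ)) ^ (3/4 : ℝ) :=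
        Real.rpow_le_rpow hypos.le (by linarith) (by norm_num)
      rw [hy34, Real.mul_rpow (by norm_num) hn1pos.le] at i1
      have i2 : (2:ℝ) ^ (3/4 : ℝ) ≤ 2 := by
        calc (2:ℝ) ^ (3/4 : ℝ) ≤ (2:ℝ) ^ (1:ℝ) :=
              Real.rpow_le_rpow_of_exponent_le (by norm_num) (by norm_num)
          _ = 2 := Real.rpow_one _
      have i3 : 0 < (n1:ℝ) ^ (3/4 : ℝ) := by positivity
      have i4 : κ0 / h ≤ 2 * (n1:ℝ) ^ (3/4 : ℝ) :=
        i1.trans (mul_le_mul_of_nonneg_right i2 i3.le)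
      rw [div_le_iff₀ hpos] at i4
      linarith
    have i5 : c * Y ^ β * (κ0 / 2) ≤ 1 := by
      calc c * Y ^ β * (κ0 / 2) ≤ c * Y ^ β * ((n1:ℝ) ^ (3/4 : ℝ) * h) :=
            mul_le_mul_of_nonneg_left hlow (by positivity)
        _ = (c * Y ^ β * (n1:ℝ) ^ (3/4 : ℝ)) * h := by ring
        _ ≤ 1 := hle1
    linarith

end H985S
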