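import Pool.Agent.H985R4.SW.Defs

/-!
Sharp critical window: lower bound of the derivative at the end of the window.
-/

set_option autoImplicit false

namespace H985S

open H974 H12S H973N Finset

theorem wdl_core (κ : ℝ) (_hκ : 0 < κ) (c0 α Cb : ℝ) (hc0 : 0 < c0) (hα : 0 < α) (_hCb : 0 < Cb)
    (hlowS : ∀ (q : ℝ) (N : ℕ), H12S.Win q κ N → ∀ n g : ℕ, 1 ≤ g → g ≤ n → n ≤ N →
      c0 * ((n:ℝ) / g) ^ α * ((n:ℝ) + 1) ^ 2 ≤ WS q n g)
    (hbd : ∀ (q : ℝ) (N : ℕ), H12S.Win q κ N →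
      ∀ n g : ℕ, 1 ≤ g → 100 * g ≤ n → n ≤ N → ∀ δ X Cin : ℝ, 0 ≤ δ → 0 ≤ X → 0 ≤ Cin →
      InSc q n g δ X Cin →
      (WS q n g - Cb * ((n:ℝ) + 1) ^ 2 - 36 * δ * WS q n (6 * g)) * X ≤ 25 * Cin * WD q n)
    (ε K2 p δ : ℝ) (hε0 : 0 < ε) (hε8 : ε ≤ 1/8) (hε7 : 7 * ε ≤ α)
    (hK2 : K2 = 36 ^ 4 * Real.exp (96 / ε)) (hp : p = 96 / ε) (hδ : δ = 1 / (144 * K2))
    (L M2 G0 Mr : ℕ) (Cin : ℝ) (hL : 2 ≤ L) (hM2 : 8 ≤ M2) (hG0 : 1 ≤ G0) (hMr : 1 ≤ Mr)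
    (hCin : 0 < Cin)
    (hgood : ∀ (q : ℝ) (n : ℕ), H12S.Win q κ n → ∀ r : ℕ, Mr ≤ r → 2 * (G0 * r) ≤ n →
        a4 q ((M2 * r) / 8) ≤ (192 * (L:ℝ)) ^ p * a4 q (4 * L * (M2 * r)) →
        InSc q n (G0 * r) δ (((M2 * r : ℕ) : ℝ) ^ 2 * a4 q (4 * L * (M2 * r))) Cin)
    (w : ℕ) (hw1 : 1 ≤ w) (hw32 : 32 * L ≤ 6 ^ w) (hw192 : 6 ^ w ≤ 192 * L)
    (A cL CW : ℝ) (hA : 1 ≤ A) (hcL : 0 < cL) (hCW : 0 < CW)
    (Y : ℝ) (hY1 : 1 ≤ Y)
    (hKY : Real.exp (4 / ε) + (M2 : ℝ) * (192 * L) * (Mr + 2) + 100 * G0 * (Mr + 2) +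
      A / cL * (192 * L) ^ 2 + 4 * CW / c0 + 4 * Cb / c0 ≤ Y ^ ε)
    (n1 : ℕ) (hn1 : 1 ≤ n1) (hn1Y : Y ^ (4 * ε) ≤ n1) (n : ℕ) (hnlo : Y * n1 ≤ n)
    (hnhi : (n:ℝ) ≤ 2 * Y * n1) (q : ℝ) (hW : H12S.Win q κ n)
    (hup : ∀ k ≤ n1, a4 q k ≤ A * ((k:ℝ) + 1) ^ (-(5/4 : ℝ)))
    (hlow : ∀ k : ℕ, 1 ≤ k → k ≤ n1 → cL * (k:ℝ) ^ (-(5/4 : ℝ)) ≤ a4 q k)
    (hWSU : ∀ g : ℕ, 1 ≤ g → g ≤ n → WS q n g ≤ CW * ((n:ℝ) / g) ^ 2 * ((n:ℝ) + 1) ^ 2) :
    c0 * cL * (4 * (L:ℝ)) ^ (-(5/4 : ℝ)) / (50 * Cin) * Y ^ (α - 3 * ε) *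
      (n1:ℝ) ^ (3/4 : ℝ) * ((n:ℝ) + 1) ^ 2 ≤ WD q n := by
  have hK20 : 0 < K2 := by rw [hK2]; positivity
  have hp0 : 0 < p := by rw [hp]; positivity
  have hδ0 : 0 < δ := by rw [hδ]; positivity
  have hLr : (2:ℝ) ≤ L := by exact_mod_cast hL
  have hMrr : (1:ℝ) ≤ Mr := by exact_mod_cast hMr
  have hM2r : (8:ℝ) ≤ M2 := by exact_mod_cast hM2
  have hG0r : (1:ℝ) ≤ G0 := by exact_mod_cast hG0
  have k1 : 0 < Real.exp (4 / ε) := Real.exp_pos _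
  have k2 : 0 < (M2 : ℝ) * (192 * L) * (Mr + 2) := by positivity
  have k3 : 0 < 100 * (G0:ℝ) * (Mr + 2) := by positivity
  have k4 : 0 < A / cL * (192 * (L:ℝ)) ^ 2 := by positivity
  have k5 : 0 < 4 * CW / c0 := by positivity
  have k6 : 0 < 4 * Cb / c0 := by positivity
  have h0 : 0 ≤ q := by linarith [hW.lo]
  have h1 : q ≤ 1 := by linarith [hW.hi]
  have hX1 : (1:ℝ) ≤ n1 := by exact_mod_cast hn1
  have hXpos : (0:ℝ) < n1 := by linarith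
  set X : ℝ := (n1:ℝ) with hX
  have hYpos : 0 < Y := by linarith
  have hYmono : ∀ a b : ℝ, a ≤ b → Y ^ a ≤ Y ^ b := fun a b h =>
    Real.rpow_le_rpow_of_exponent_le hY1 h
  have hYone : ∀ a : ℝ, 0 ≤ a → 1 ≤ Y ^ a := fun a h => Real.one_le_rpow hY1 h
  have hYε1 : Y ^ ε ≤ Y := by
    calc Y ^ ε ≤ Y ^ (1:ℝ) := hYmono _ _ (by linarith)
      _ = Y := Real.rpow_one _
  -- the number of scales
  set x : ℝ := Real.log Y with hx
  have hexpx : Real.exp x = Y := Real.exp_log hYpos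
  have hεx : 4 ≤ ε * x := by
    have i1 : Real.exp (4 / ε) ≤ Y := by linarith
    have i2 : 4 / ε ≤ x := by rw [hx, Real.le_log_iff_exp_le hYpos]; exact i1
    rw [div_le_iff₀ hε0] at i2
    linarith
  have hxpos : 0 < x := by
    by_contra hn
    have : ε * x ≤ 0 := mul_nonpos_of_nonneg_of_nonpos hε0.le (by linarith)
    linarith
  have hl1 := log6_one
  have hl2 := log6_two
  set J : ℕ := ⌊ε * x / Real.log 6⌋₊ with hJ
  have hJle : (J:ℝ) * Real.log 6 ≤ ε * x := by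
    have : (J:ℝ) ≤ ε * x / Real.log 6 := Nat.floor_le (by positivity)
    rwa [le_div_iff₀ (by linarith)] at this
  have hJge : ε * x / 4 ≤ J := by
    have i1 : ε * x / Real.log 6 < J + 1 := Nat.lt_floor_add_one _
    have i2 : ε * x / 2 ≤ ε * x / Real.log 6 :=
      div_le_div_of_nonneg_left (by linarith) (by linarith) hl2
    linarith
  have hJ1r : (1:ℝ) ≤ J := by linarith
  have hJ1 : 1 ≤ J := by exact_mod_cast hJ1r
  have h6J : (6:ℝ) ^ J ≤ Y ^ ε := by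
    rw [← Real.rpow_natCast, Real.rpow_def_of_pos (by norm_num), Real.rpow_def_of_pos hYpos]
    apply Real.exp_le_exp.mpr
    rw [← hx]
    linarith
  -- the first scale
  set Z : ℝ := X * Y ^ (-(4 * ε)) with hZ
  have hZ1 : 1 ≤ Z := by
    have i1 : Y ^ (4 * ε) * Y ^ (-(4 * ε)) = 1 := by
      rw [← Real.rpow_add hYpos]; simp
    calc (1:ℝ) = Y ^ (4 * ε) * Y ^ (-(4 * ε)) := i1.symm
      _ ≤ X * Y ^ (-(4 * ε)) := mul_le_mul_of_nonneg_right hn1Y (by positivity)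
  have hZpos : 0 < Z := by linarith
  set r0 : ℕ := ⌈Z⌉₊ + Mr with hr0
  have hr0Mr : Mr ≤ r0 := by omega
  have hr01 : 1 ≤ r0 := by omega
  have hr0lo : Z ≤ r0 := by
    rw [hr0]; push_cast
    have := Nat.le_ceil Z
    linarith
  have hr0hi : (r0:ℝ) ≤ (Mr + 2) * Z := by
    rw [hr0]; push_cast
    have i1 := (Nat.ceil_lt_add_one (a := Z) hZpos.le).le
    nlinarith
  have hr0pos : (0:ℝ) < r0 := by exact_mod_cast hr01
  -- scales
  have hscale : ∀ j, j ≤ J → ((6 ^ j * r0 : ℕ) : ℝ) ≤ (Mr + 2) * (X * Y ^ (-(3 * ε))) := by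
    intro j hj
    push_cast
    have i1 : (6:ℝ) ^ j ≤ Y ^ ε := le_trans (pow_le_pow_right₀ (by norm_num) hj) h6J
    calc (6:ℝ) ^ j * r0 ≤ Y ^ ε * ((Mr + 2) * Z) :=
          mul_le_mul i1 hr0hi (by positivity) (by positivity)
      _ = (Mr + 2) * (X * (Y ^ ε * Y ^ (-(4 * ε)))) := by rw [hZ]; ring
      _ = (Mr + 2) * (X * Y ^ (-(3 * ε))) := by
          rw [← Real.rpow_add hYpos]; congr 3; ring
  have hXY : ∀ s : ℝ, 0 ≤ s → Y ^ ε * (X * Y ^ (-(3 * ε))) ≤ X := by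
    intro _ _
    calc Y ^ ε * (X * Y ^ (-(3 * ε))) = X * (Y ^ ε * Y ^ (-(3 * ε))) := by ring
      _ = X * Y ^ (-(2 * ε)) := by rw [← Real.rpow_add hYpos]; congr 2; ring
      _ ≤ X * Y ^ (0:ℝ) := mul_le_mul_of_nonneg_left (hYmono _ _ (by linarith)) hXpos.le
      _ = X := by rw [Real.rpow_zero, mul_one]
  have hm : ∀ j, j ≤ J + w → M2 * (6 ^ j * r0) ≤ n1 := by
    intro j hj
    have i0 : (6:ℝ) ^ j ≤ 6 ^ J * 6 ^ w := by
      rw [← pow_add]; exact pow_le_pow_right₀ (by norm_num) hj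
    have i1 : (6:ℝ) ^ w ≤ 192 * L := by exact_mod_cast hw192
    have i2 := hscale J le_rfl
    have i3 : ((M2 * (6 ^ j * r0) : ℕ) : ℝ) ≤ X := by
      push_cast at i2 ⊢
      calc (M2:ℝ) * (6 ^ j * r0) ≤ M2 * ((6 ^ J * 6 ^ w) * r0) := by
            apply mul_le_mul_of_nonneg_left _ (by linarith)
            exact mul_le_mul_of_nonneg_right i0 (by positivity)
        _ = (M2 * 6 ^ w) * (6 ^ J * r0) := by ring
        _ ≤ (M2 * (192 * L)) * ((Mr + 2) * (X * Y ^ (-(3 * ε)))) := by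
            apply mul_le_mul _ i2 (by positivity) (by positivity)
            exact mul_le_mul_of_nonneg_left i1 (by linarith)
        _ = (M2 * (192 * L) * (Mr + 2)) * (X * Y ^ (-(3 * ε))) := by ring
        _ ≤ Y ^ ε * (X * Y ^ (-(3 * ε))) := by
            apply mul_le_mul_of_nonneg_right _ (by positivity)
            linarith
        _ ≤ X := hXY 0 le_rfl
    exact (Nat.cast_le (α := ℝ)).mp i3
  have hnX : Y * X ≤ n := hnlo
  have hXn : X ≤ n := by nlinarith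
  have hgX : ∀ j, j ≤ J → 100 * ((G0 * (6 ^ j * r0) : ℕ) : ℝ) ≤ X := by
    intro j hj
    have i2 := hscale j hj
    push_cast at i2 ⊢
    calc 100 * ((G0:ℝ) * (6 ^ j * r0)) = (100 * G0) * (6 ^ j * r0) := by ring
      _ ≤ (100 * G0) * ((Mr + 2) * (X * Y ^ (-(3 * ε)))) := by
          apply mul_le_mul_of_nonneg_left i2 (by positivity)
      _ = (100 * G0 * (Mr + 2)) * (X * Y ^ (-(3 * ε))) := by ring
      _ ≤ Y ^ ε * (X * Y ^ (-(3 * ε))) := by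
          apply mul_le_mul_of_nonneg_right _ (by positivity)
          linarith
      _ ≤ X := hXY 0 le_rfl
  have hgn : ∀ j, j ≤ J → 100 * (G0 * (6 ^ j * r0)) ≤ n := by
    intro j hj
    have := (hgX j hj).trans hXn
    exact_mod_cast this
  have hg1 : ∀ j : ℕ, 1 ≤ G0 * (6 ^ j * r0) := by
    intro j
    have : 0 < 6 ^ j := by positivity
    exact Nat.mul_pos (by omega) (Nat.mul_pos this (by omega))
  -- the sequences
  set a : ℕ → ℝ := fun j => a4 q ((M2 * (6 ^ (min j (J + w)) * r0)) / 8) with ha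
  have hk8 : ∀ j : ℕ, 1 ≤ (M2 * (6 ^ j * r0)) / 8 := by
    intro j
    rw [Nat.le_div_iff_mul_le (by norm_num)]
    have : 1 ≤ 6 ^ j * r0 := Nat.mul_pos (by positivity) (by omega)
    nlinarith
  have hkn : ∀ j : ℕ, j ≤ J + w → (M2 * (6 ^ j * r0)) / 8 ≤ n1 := fun j hj =>
    (Nat.div_le_self _ _).trans (hm j hj)
  have ha0 : ∀ j, 0 < a j := by
    intro j
    refine lt_of_lt_of_le ?_ (hlow _ (hk8 _) (hkn _ (min_le_right _ _)))
    have i3 : (0:ℝ) < (((M2 * (6 ^ (min j (J + w)) * r0)) / 8 : ℕ) : ℝ) := by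
      exact_mod_cast hk8 _
    positivity
  have hanti : ∀ j, a (j + 1) ≤ a j := by
    intro j
    apply a4_anti h0 h1 (hk8 _)
    apply Nat.div_le_div_right
    apply Nat.mul_le_mul_left
    apply Nat.mul_le_mul_right
    apply Nat.pow_le_pow_right (by norm_num)
    omega
  set S : ℕ → ℝ := fun j => WS q n (G0 * (6 ^ j * r0)) with hS
  have hn1' : 0 < ((n:ℝ) + 1) ^ 2 := by positivity
  have hSlow : ∀ j, j ≤ J → c0 * ((n:ℝ) / ((G0 * (6 ^ j * r0) : ℕ) : ℝ)) ^ α * ((n:ℝ) + 1) ^ 2 ≤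
      S j := fun j hj => hlowS q n hW n _ (hg1 j) (by have := hgn j hj; omega) le_rfl
  have hratio : ∀ j, j ≤ J → Y ≤ (n:ℝ) / ((G0 * (6 ^ j * r0) : ℕ) : ℝ) := by
    intro j hj
    have i1 : (0:ℝ) < ((G0 * (6 ^ j * r0) : ℕ) : ℝ) := by exact_mod_cast hg1 j
    rw [le_div_iff₀ i1]
    have i2 := hgX j hj
    calc Y * ((G0 * (6 ^ j * r0) : ℕ) : ℝ) ≤ Y * X := by
          apply mul_le_mul_of_nonneg_left _ hYpos.le
          linarith
      _ ≤ n := hnX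
  have hratioα : ∀ j, j ≤ J → Y ^ α ≤ ((n:ℝ) / ((G0 * (6 ^ j * r0) : ℕ) : ℝ)) ^ α := by
    intro j hj
    exact Real.rpow_le_rpow hYpos.le (hratio j hj) hα.le
  have hYα1 : 1 ≤ Y ^ α := hYone α hα.le
  have hSpos : ∀ j, j ≤ J → 0 < S j := by
    intro j hj
    refine lt_of_lt_of_le ?_ (hSlow j hj)
    have i2 := hratioα j hj
    have i3 : 0 < ((n:ℝ) / ((G0 * (6 ^ j * r0) : ℕ) : ℝ)) ^ α := by linarith
    positivity
  have hS6 : ∀ j, j < J → S j ≤ 36 * S (j + 1) := by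
    intro j hj
    have := WS_six h0 h1 n (hg1 j)
    have e : 6 * (G0 * (6 ^ j * r0)) = G0 * (6 ^ (j + 1) * r0) := by rw [pow_succ]; ring
    rw [e] at this
    exact this
  -- pigeonhole
  have hexpΛ : Real.exp (6 * x) = Y ^ 6 := by
    rw [← hexpx, ← Real.exp_nat_mul]; norm_num
  have hp1 : a 0 ≤ Real.exp (6 * x) * a (J + w) := by
    set kk0 : ℕ := (M2 * (6 ^ 0 * r0)) / 8 with hkk0
    set kk1 : ℕ := (M2 * (6 ^ (J + w) * r0)) / 8 with hkk1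
    have e0 : a 0 = a4 q kk0 := by rw [ha, hkk0]; simp
    have e1 : a (J + w) = a4 q kk1 := by rw [ha, hkk1]; simp
    have i0 := hup kk0 (hkn 0 (by omega))
    have i1 := hlow kk1 (hk8 _) (hkn _ le_rfl)
    -- sizes
    set P : ℝ := 6 ^ (J + w) with hP
    have hP1 : 1 ≤ P := one_le_pow₀ (by norm_num)
    have hPle : P ≤ Y ^ ε * (192 * L) := by
      rw [hP, pow_add]
      exact mul_le_mul h6J (by exact_mod_cast hw192) (by positivity) (by positivity)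
    have s0 : (M2 : ℝ) * r0 / 8 ≤ (kk0:ℝ) + 1 := by
      have : M2 * (6 ^ 0 * r0) < 8 * (kk0 + 1) := by
        rw [hkk0]
        have := Nat.lt_mul_div_succ (M2 * (6 ^ 0 * r0)) (show 0 < 8 by norm_num)
        exact this
      have h2 : ((M2 * (6 ^ 0 * r0) : ℕ) : ℝ) < ((8 * (kk0 + 1) : ℕ) : ℝ) := by exact_mod_cast this
      push_cast at h2
      simp only [pow_zero, one_mul] at h2
      linarith
    have s1 : (kk1:ℝ) ≤ (M2 : ℝ) * r0 / 8 * P := by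
      have : kk1 * 8 ≤ M2 * (6 ^ (J + w) * r0) := by
        rw [hkk1]; exact Nat.div_mul_le_self _ _
      have h2 : ((kk1 * 8 : ℕ) : ℝ) ≤ ((M2 * (6 ^ (J + w) * r0) : ℕ) : ℝ) := by exact_mod_cast this
      push_cast at h2
      rw [hP]
      nlinarith
    set B : ℝ := (M2 : ℝ) * r0 / 8 with hB
    have hBpos : 0 < B := by positivity
    have hkk1pos : (0:ℝ) < kk1 := by exact_mod_cast hk8 _
    have j0 : a 0 ≤ A * B ^ (-(5/4 : ℝ)) := by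
      rw [e0]
      refine i0.trans (mul_le_mul_of_nonneg_left ?_ (by linarith))
      exact Real.rpow_le_rpow_of_nonpos hBpos s0 (by norm_num)
    have j1 : cL * (B * P) ^ (-(5/4 : ℝ)) ≤ a (J + w) := by
      rw [e1]
      refine le_trans (mul_le_mul_of_nonneg_left ?_ hcL.le) i1
      exact Real.rpow_le_rpow_of_nonpos hkk1pos s1 (by norm_num)
    have hPpos : 0 < P := by linarith
    rw [Real.mul_rpow hBpos.le hPpos.le] at j1
    have hPP : P ^ (-(2:ℝ)) ≤ P ^ (-(5/4 : ℝ)) := Real.rpow_le_rpow_of_exponent_le hP1 (by norm_num)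
    have hP2 : P ^ (-(2:ℝ)) = (P ^ 2)⁻¹ := by rw [Real.rpow_neg hPpos.le, Real.rpow_two]
    have j2 : cL * (B ^ (-(5/4 : ℝ)) * (P ^ 2)⁻¹) ≤ a (J + w) := by
      refine le_trans ?_ j1
      rw [← hP2]
      apply mul_le_mul_of_nonneg_left _ hcL.le
      exact mul_le_mul_of_nonneg_left hPP (by positivity)
    have j3 : A / cL * P ^ 2 ≤ Y ^ 6 := by
      have l1 : A / cL * (192 * (L:ℝ)) ^ 2 ≤ Y ^ ε := by linarith
      have l2 : P ^ 2 ≤ (Y ^ ε * (192 * L)) ^ 2 := pow_le_pow_left₀ (by positivity) hPle 2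
      calc A / cL * P ^ 2 ≤ A / cL * (Y ^ ε * (192 * L)) ^ 2 :=
            mul_le_mul_of_nonneg_left l2 (by positivity)
        _ = (A / cL * (192 * (L:ℝ)) ^ 2) * (Y ^ ε) ^ 2 := by ring
        _ ≤ Y ^ ε * (Y ^ ε) ^ 2 := mul_le_mul_of_nonneg_right l1 (by positivity)
        _ ≤ Y * Y ^ 2 := by
            apply mul_le_mul hYε1 (pow_le_pow_left₀ (by positivity) hYε1 2) (by positivity) hYpos.le
        _ = Y ^ 3 := by ring
        _ ≤ Y ^ 6 := pow_le_pow_right₀ hY1 (by norm_num)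
    rw [hexpΛ]
    calc a 0 ≤ A * B ^ (-(5/4 : ℝ)) := j0
      _ = (A / cL * P ^ 2) * (cL * (B ^ (-(5/4 : ℝ)) * (P ^ 2)⁻¹)) := by
          field_simp
      _ ≤ Y ^ 6 * (cL * (B ^ (-(5/4 : ℝ)) * (P ^ 2)⁻¹)) :=
          mul_le_mul_of_nonneg_right j3 (by positivity)
      _ ≤ Y ^ 6 * a (J + w) := mul_le_mul_of_nonneg_left j2 (by positivity)
  have hp2 : S J ≤ Real.exp (6 * x) * S 0 := by
    have hgJ : G0 * (6 ^ J * r0) ≤ n := by have := hgn J le_rfl; omega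
    have i1 : S J ≤ CW * ((n:ℝ) / ((G0 * (6 ^ J * r0) : ℕ) : ℝ)) ^ 2 * ((n:ℝ) + 1) ^ 2 :=
      hWSU _ (hg1 J) hgJ
    have i2 : c0 * ((n:ℝ) + 1) ^ 2 ≤ S 0 := by
      refine le_trans ?_ (hSlow 0 (by omega))
      apply mul_le_mul_of_nonneg_right _ hn1'.le
      have i3 := hratioα 0 (by omega)
      nlinarith
    have i3 : (n:ℝ) / ((G0 * (6 ^ J * r0) : ℕ) : ℝ) ≤ 2 * Y ^ (1 + 4 * ε) := by
      have l1 : (0:ℝ) < ((G0 * (6 ^ J * r0) : ℕ) : ℝ) := by exact_mod_cast hg1 J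
      rw [div_le_iff₀ l1]
      have l2 : Z ≤ ((G0 * (6 ^ J * r0) : ℕ) : ℝ) := by
        refine hr0lo.trans ?_
        have : r0 ≤ G0 * (6 ^ J * r0) := by
          have i1 : 1 ≤ 6 ^ J := Nat.one_le_pow _ _ (by norm_num)
          calc r0 = 1 * (1 * r0) := by ring
            _ ≤ G0 * (6 ^ J * r0) := Nat.mul_le_mul (by omega) (Nat.mul_le_mul_right _ i1)
        exact_mod_cast this
      calc (n:ℝ) ≤ 2 * Y * X := hnhi
        _ = 2 * Y ^ (1 + 4 * ε) * Z := by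
            have l3 : Y ^ (1 + 4 * ε) * Y ^ (-(4 * ε)) = Y := by
              rw [← Real.rpow_add hYpos]
              have : 1 + 4 * ε + -(4 * ε) = 1 := by ring
              rw [this, Real.rpow_one]
            rw [hZ]
            calc 2 * Y * X = 2 * (Y ^ (1 + 4 * ε) * Y ^ (-(4 * ε))) * X := by rw [l3]
              _ = _ := by ring
        _ ≤ 2 * Y ^ (1 + 4 * ε) * ((G0 * (6 ^ J * r0) : ℕ) : ℝ) :=
            mul_le_mul_of_nonneg_left l2 (by positivity)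
    have i4 : CW * ((n:ℝ) / ((G0 * (6 ^ J * r0) : ℕ) : ℝ)) ^ 2 ≤ Y ^ 6 * c0 := by
      have l1 : ((n:ℝ) / ((G0 * (6 ^ J * r0) : ℕ) : ℝ)) ^ 2 ≤ (2 * Y ^ (1 + 4 * ε)) ^ 2 :=
        pow_le_pow_left₀ (by positivity) i3 2
      have l2 : Y ^ (1 + 4 * ε) ≤ Y ^ 2 := by
        calc Y ^ (1 + 4 * ε) ≤ Y ^ (2:ℝ) := hYmono _ _ (by linarith)
          _ = Y ^ 2 := Real.rpow_two _
      have l3 : 4 * CW / c0 ≤ Y := by linarith
      have l4 : 4 * CW ≤ Y * c0 := by rwa [div_le_iff₀ hc0] at l3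
      calc CW * ((n:ℝ) / ((G0 * (6 ^ J * r0) : ℕ) : ℝ)) ^ 2
          ≤ CW * (2 * Y ^ (1 + 4 * ε)) ^ 2 := mul_le_mul_of_nonneg_left l1 hCW.le
        _ = (4 * CW) * (Y ^ (1 + 4 * ε)) ^ 2 := by ring
        _ ≤ (4 * CW) * (Y ^ 2) ^ 2 := by
            apply mul_le_mul_of_nonneg_left _ (by positivity)
            exact pow_le_pow_left₀ (by positivity) l2 2
        _ ≤ (Y * c0) * (Y ^ 2) ^ 2 := mul_le_mul_of_nonneg_right l4 (by positivity)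
        _ = Y ^ 5 * c0 := by ring
        _ ≤ Y ^ 6 * c0 := mul_le_mul_of_nonneg_right (pow_le_pow_right₀ hY1 (by norm_num)) hc0.le
    rw [hexpΛ]
    calc S J ≤ CW * ((n:ℝ) / ((G0 * (6 ^ J * r0) : ℕ) : ℝ)) ^ 2 * ((n:ℝ) + 1) ^ 2 := i1
      _ ≤ (Y ^ 6 * c0) * ((n:ℝ) + 1) ^ 2 := mul_le_mul_of_nonneg_right i4 hn1'.le
      _ = Y ^ 6 * (c0 * ((n:ℝ) + 1) ^ 2) := by ring
      _ ≤ Y ^ 6 * S 0 := mul_le_mul_of_nonneg_left i2 (by positivity)
  have hJpos : (0:ℝ) < J := by linarith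
  have hratJ : 4 * (6 * x) / J ≤ 96 / ε := by
    rw [div_le_div_iff₀ hJpos hε0]
    nlinarith
  have hK1 : Real.exp (4 * w * (6 * x) / J) ≤ (192 * (L:ℝ)) ^ p := by
    have hL192 : (0:ℝ) < 192 * L := by linarith
    rw [Real.rpow_def_of_pos hL192]
    apply Real.exp_le_exp.mpr
    have i1 : (w:ℝ) ≤ Real.log (192 * L) := by
      rw [Real.le_log_iff_exp_le hL192]
      calc Real.exp w = Real.exp 1 ^ w := by rw [← Real.exp_nat_mul, mul_one]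
        _ ≤ 6 ^ w := by
          apply pow_le_pow_left₀ (Real.exp_pos _).le
          have := Real.exp_one_lt_d9
          linarith
        _ ≤ 192 * L := by exact_mod_cast hw192
    have i2 : 4 * w * (6 * x) / J = w * (4 * (6 * x) / J) := by ring
    rw [i2]
    have i3 : 0 ≤ 4 * (6 * x) / J := by positivity
    calc (w:ℝ) * (4 * (6 * x) / J) ≤ Real.log (192 * L) * (96 / ε) :=
          mul_le_mul i1 hratJ i3 ((Nat.cast_nonneg _).trans i1)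
      _ = _ := by rw [hp]
  have hK2' : 36 ^ 4 * Real.exp (4 * (6 * x) / J) ≤ K2 := by
    rw [hK2]
    apply mul_le_mul_of_nonneg_left _ (by positivity)
    exact Real.exp_le_exp.mpr hratJ
  obtain ⟨j, hjJ, hja, hjS⟩ := dpig hJ1 hw1 (a := a) (S := S) (Λ := 6 * x)
    (K1 := (192 * (L:ℝ)) ^ p) (K2 := K2) (by positivity) ha0 hanti hSpos hS6 hp1 hp2 hK1 hK2'
  -- the good scale
  set r : ℕ := 6 ^ j * r0 with hr
  have hrMr : Mr ≤ r := by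
    have : 1 ≤ 6 ^ j := Nat.one_le_pow _ _ (by norm_num)
    nlinarith
  have hgr : 100 * (G0 * r) ≤ n := hgn j hjJ.le
  have haj : a j = a4 q ((M2 * r) / 8) := by
    rw [ha]; simp only [hr]
    rw [min_eq_left (by omega)]
  have hajw : a (j + w) = a4 q ((M2 * (6 ^ (j + w) * r0)) / 8) := by
    rw [ha]; simp only
    rw [min_eq_left (by omega)]
  have hr1 : 1 ≤ r := hMr.trans hrMr
  have hk4 : 4 * L * (M2 * r) ≤ (M2 * (6 ^ (j + w) * r0)) / 8 := by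
    rw [Nat.le_div_iff_mul_le (by norm_num)]
    have e1 : M2 * (6 ^ (j + w) * r0) = 6 ^ w * (M2 * r) := by rw [hr, pow_add]; ring
    have e2 : 4 * L * (M2 * r) * 8 = (32 * L) * (M2 * r) := by ring
    rw [e1, e2]
    exact Nat.mul_le_mul_right _ hw32
  have hk41 : 1 ≤ 4 * L * (M2 * r) := by
    have : 0 < 4 * L * (M2 * r) := by
      have : 0 < L := by omega
      have : 0 < M2 := by omega
      have : 0 < r := hr1
      positivity
    exact this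
  have hreg : a4 q ((M2 * r) / 8) ≤ (192 * (L:ℝ)) ^ p * a4 q (4 * L * (M2 * r)) := by
    rw [← haj]
    refine hja.trans ?_
    apply mul_le_mul_of_nonneg_left _ (by positivity)
    rw [hajw]
    exact a4_anti h0 h1 hk41 hk4
  have hins := hgood q n hW r hrMr (by omega) hreg
  set Q : ℝ := ((M2 * r : ℕ) : ℝ) ^ 2 * a4 q (4 * L * (M2 * r)) with hQ
  have hQ0 : 0 ≤ Q := mul_nonneg (by positivity) (a4_nonneg' h0 h1 _)
  have hmain := hbd q n hW n (G0 * r) (hg1 j) hgr le_rfl δ Q Cin hδ0.le hQ0 hCin.le hins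
  have hSj : WS q n (G0 * r) = S j := rfl
  have hSj1 : WS q n (6 * (G0 * r)) = S (j + 1) := by
    show WS q n _ = WS q n _
    congr 1
    rw [hr, pow_succ]; ring
  rw [hSj, hSj1] at hmain
  have hd1 : 36 * δ * S (j + 1) ≤ S j / 4 := by
    calc 36 * δ * S (j + 1) ≤ 36 * δ * (K2 * S j) :=
          mul_le_mul_of_nonneg_left hjS (by positivity)
      _ = S j / 4 := by rw [hδ]; field_simp; ring
  have hd2 : Cb * ((n:ℝ) + 1) ^ 2 ≤ S j / 4 := by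
    have i1 := hSlow j hjJ.le
    have i2 := hratioα j hjJ.le
    have i3 : 4 * Cb / c0 ≤ Y ^ α := by
      calc 4 * Cb / c0 ≤ Y ^ ε := by linarith
        _ ≤ _ := hYmono _ _ (by linarith)
    have i4 : 4 * Cb ≤ c0 * ((n:ℝ) / ((G0 * (6 ^ j * r0) : ℕ) : ℝ)) ^ α := by
      rw [div_le_iff₀ hc0] at i3
      nlinarith
    have i5 := mul_le_mul_of_nonneg_right i4 hn1'.le
    linarith
  have hd3 : S j / 2 * Q ≤ 25 * Cin * WD q n := by
    refine le_trans ?_ hmain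
    apply mul_le_mul_of_nonneg_right _ hQ0
    linarith
  -- the size of `Q`
  have hQlow : cL * (4 * (L:ℝ)) ^ (-(5/4 : ℝ)) * (X ^ (3/4 : ℝ) * Y ^ (-(3 * ε))) ≤ Q := by
    set m : ℝ := ((M2 * r : ℕ) : ℝ) with hm'
    have hmlo : Z ≤ m := by
      refine hr0lo.trans ?_
      rw [hm']
      have : r0 ≤ M2 * r := by
        have i1 : 1 ≤ 6 ^ j := Nat.one_le_pow _ _ (by norm_num)
        calc r0 = 1 * (1 * r0) := by ring
          _ ≤ M2 * (6 ^ j * r0) := Nat.mul_le_mul (by omega) (Nat.mul_le_mul_right _ i1)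
      exact_mod_cast this
    have hmpos : 0 < m := by linarith
    have i1 : 4 * L * (M2 * r) ≤ n1 := hk4.trans (hkn (j + w) (by omega))
    have i2 := hlow _ hk41 i1
    have i3 : ((4 * L * (M2 * r) : ℕ) : ℝ) = (4 * L) * m := by rw [hm']; push_cast; ring
    rw [i3, Real.mul_rpow (by positivity) hmpos.le] at i2
    have i5 : m ^ 2 * m ^ (-(5/4 : ℝ)) = m ^ (3/4 : ℝ) := by
      rw [← Real.rpow_natCast, ← Real.rpow_add hmpos]
      congr 1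
      push_cast
      norm_num
    have i6 : X ^ (3/4 : ℝ) * Y ^ (-(3 * ε)) = Z ^ (3/4 : ℝ) := by
      rw [hZ, Real.mul_rpow hXpos.le (by positivity), ← Real.rpow_mul hYpos.le]
      congr 2
      ring
    have i7 : Z ^ (3/4 : ℝ) ≤ m ^ (3/4 : ℝ) := Real.rpow_le_rpow hZpos.le hmlo (by norm_num)
    calc cL * (4 * (L:ℝ)) ^ (-(5/4 : ℝ)) * (X ^ (3/4 : ℝ) * Y ^ (-(3 * ε)))
        = cL * (4 * (L:ℝ)) ^ (-(5/4 : ℝ)) * Z ^ (3/4 : ℝ) := by rw [i6]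
      _ ≤ cL * (4 * (L:ℝ)) ^ (-(5/4 : ℝ)) * m ^ (3/4 : ℝ) :=
          mul_le_mul_of_nonneg_left i7 (by positivity)
      _ = m ^ 2 * (cL * ((4 * (L:ℝ)) ^ (-(5/4 : ℝ)) * m ^ (-(5/4 : ℝ)))) := by
          rw [← i5]; ring
      _ ≤ m ^ 2 * a4 q (4 * L * (M2 * r)) := mul_le_mul_of_nonneg_left i2 (by positivity)
  -- conclusion
  have hS7 : c0 * Y ^ α * ((n:ℝ) + 1) ^ 2 ≤ S j := by
    refine le_trans ?_ (hSlow j hjJ.le)
    apply mul_le_mul_of_nonneg_right _ hn1'.le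
    exact mul_le_mul_of_nonneg_left (hratioα j hjJ.le) hc0.le
  have hf1 : c0 * Y ^ α * ((n:ℝ) + 1) ^ 2 / 2 *
      (cL * (4 * (L:ℝ)) ^ (-(5/4 : ℝ)) * (X ^ (3/4 : ℝ) * Y ^ (-(3 * ε)))) ≤ 25 * Cin * WD q n := by
    refine le_trans ?_ hd3
    apply mul_le_mul _ hQlow (by positivity) (by linarith [hSpos j hjJ.le])
    linarith
  have hf2 : Y ^ α * Y ^ (-(3 * ε)) = Y ^ (α - 3 * ε) := by
    rw [← Real.rpow_add hYpos]; congr 1
  have hf4 : 25 * Cin * (c0 * cL * (4 * (L:ℝ)) ^ (-(5/4 : ℝ)) / (50 * Cin) * Y ^ (α - 3 * ε) *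
      X ^ (3/4 : ℝ) * ((n:ℝ) + 1) ^ 2) = c0 * Y ^ α * ((n:ℝ) + 1) ^ 2 / 2 *
      (cL * (4 * (L:ℝ)) ^ (-(5/4 : ℝ)) * (X ^ (3/4 : ℝ) * Y ^ (-(3 * ε)))) := by
    rw [← hf2]
    field_simp
    ring
  rw [← hf4] at hf1
  exact le_of_mul_le_mul_left hf1 (by positivity)

theorem wdl_s (hSTAB : St_STAB) (hLOW : St_LOW) (hWSU : St_WSU) : St_WDL := by
  intro κ hκ
  obtain ⟨c0, α, hc0, hα, hlowS⟩ := WS_low κ hκ
  obtain ⟨Cb, hCb, hbd⟩ := scale_bd κ hκ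
  obtain ⟨kT, A, kS, _, hA, hkS, hstab⟩ := hSTAB
  obtain ⟨cL, kL, hcL, hkL, hlow⟩ := hLOW
  obtain ⟨CW, hCW, hwsu⟩ := hWSU
  set ε : ℝ := min (1/8) (α / 7) with hε
  have hε0 : 0 < ε := lt_min (by norm_num) (by positivity)
  have hε8 : ε ≤ 1/8 := min_le_left _ _
  have hε7 : 7 * ε ≤ α := by
    have : ε ≤ α / 7 := min_le_right _ _
    linarith
  have hp0 : 0 < 96 / ε := by positivity
  have hδ0 : 0 < 1 / (144 * (36 ^ 4 * Real.exp (96 / ε))) := by positivity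
  obtain ⟨L, M2, G0, Mr, Cin, hL, hM2, hG0, hMr, hCin, hgood⟩ :=
    good_scale exit3 stIn κ hκ (96 / ε) (1 / (144 * (36 ^ 4 * Real.exp (96 / ε)))) hp0 hδ0
  obtain ⟨w, hw1, hw32, hw192⟩ := w_exists L hL
  set K : ℝ := Real.exp (4 / ε) + (M2 : ℝ) * (192 * L) * (Mr + 2) + 100 * G0 * (Mr + 2) +
      A / cL * (192 * L) ^ 2 + 4 * CW / c0 + 4 * Cb / c0 with hK
  have hKpos : 0 < K := by
    have hA0 : 0 < A := by linarith
    positivity
  have hLpos : (0:ℝ) < L := by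
    have : 0 < L := by omega
    exact_mod_cast this
  refine ⟨c0 * cL * (4 * (L:ℝ)) ^ (-(5/4 : ℝ)) / (50 * Cin), α - 3 * ε, min kS kL,
    max 1 (K ^ (1 / ε)), by positivity, by linarith, lt_min hkS hkL, le_max_left _ _, ?_⟩
  intro Y hY
  have hY1 : 1 ≤ Y := (le_max_left _ _).trans hY
  have hYpos : 0 < Y := by linarith
  have hKY : K ≤ Y ^ ε := by
    have i1 : K ^ (1 / ε) ≤ Y := (le_max_right _ _).trans hY
    calc K = (K ^ (1 / ε)) ^ ε := by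
          rw [← Real.rpow_mul hKpos.le, one_div, inv_mul_cancel₀ hε0.ne', Real.rpow_one]
      _ ≤ Y ^ ε := Real.rpow_le_rpow (by positivity) i1 hε0.le
  refine ⟨⌈Y ^ (4 * ε)⌉₊ + 1, ?_⟩
  intro n1 hn1 n hnlo hnhi q hq hW
  have hn11 : 1 ≤ n1 := by omega
  have hn1Y : Y ^ (4 * ε) ≤ n1 := by
    refine (Nat.le_ceil _).trans ?_
    exact_mod_cast (by omega : ⌈Y ^ (4 * ε)⌉₊ ≤ n1)
  have hn1pos : (0:ℝ) < n1 := by exact_mod_cast hn11
  have hpw : (0:ℝ) ≤ (n1:ℝ) ^ (-(3/4 : ℝ)) := by positivity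
  have hqS : |q - 1/2| ≤ kS * (n1:ℝ) ^ (-(3/4 : ℝ)) :=
    hq.trans (mul_le_mul_of_nonneg_right (min_le_left _ _) hpw)
  have hqL : |q - 1/2| ≤ kL * (n1:ℝ) ^ (-(3/4 : ℝ)) :=
    hq.trans (mul_le_mul_of_nonneg_right (min_le_right _ _) hpw)
  have hX1 : (1:ℝ) ≤ n1 := by exact_mod_cast hn11
  have h0 : 0 ≤ q := by linarith [hW.lo]
  have h1 : q ≤ 1 := by linarith [hW.hi]
  have hn1 : 1 ≤ n := by
    have : (1:ℝ) ≤ n := by nlinarith
    exact_mod_cast this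
  exact wdl_core κ hκ c0 α Cb hc0 hα hCb hlowS hbd ε _ _ _ hε0 hε8 hε7 rfl rfl rfl
    L M2 G0 Mr Cin hL hM2 hG0 hMr hCin hgood w hw1 hw32 hw192 A cL CW hA hcL hCW Y hY1 hKY
    n1 hn11 hn1Y n hnlo hnhi q hW (hstab n1 hn11 q hqS).2 (hlow n1 hn11 q hqL)
    (fun g hg1 hgn => hwsu q h0 h1 n g hg1 hgn)

end H985S
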