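import Pool.Agent.H985R4.SW.Defs

/-!
Upper bound of the sum of block influences.
-/

set_option autoImplicit false

namespace H985S

open H974 H12S H973N Finset

theorem WSU_mul {g n k x : ℤ} (hg : 1 ≤ g) (hk : n < g * (k + 1)) (hx : 2 * k + 4 < x) :
    2 * n + 2 * g < g * x := by
  have h1 : g * (2 * k + 5) ≤ g * x := mul_le_mul_of_nonneg_left (by omega) (by omega)
  nlinarith

theorem WSU_SB {q : ℝ} (h0 : 0 ≤ q) (h1 : q ≤ 1) {n g s t : ℕ} (hg : 1 ≤ g) (hgn : g ≤ n)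
    (hs : s ≤ 2 * n) (ht : t ≤ 2 * n) :
    SB q s t (2 * n + 1) g ≤ 169 * ((n:ℝ) / g) ^ 2 := by
  classical
  set k : ℕ := n / g with hk
  have hk1 : n < g * (k + 1) := Nat.lt_mul_div_succ n (by omega)
  have hk1' : (n : ℤ) < (g : ℤ) * ((k : ℤ) + 1) := by exact_mod_cast hk1
  have hg' : (1 : ℤ) ≤ g := by exact_mod_cast hg
  set B : Finset (ℤ × ℤ) := idx (2 * k + 4) with hB
  have hzero : ∀ i : ℤ × ℤ, i ∉ B → PB q s t (gp g i) (2 * g - 1) = 0 := by
    intro i hi
    have hi' : 2 * (k : ℤ) + 4 < |i.1| ∨ 2 * (k : ℤ) + 4 < |i.2| := by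
      by_contra hcon
      rw [not_or, not_lt, not_lt, abs_le, abs_le] at hcon
      apply hi
      rw [hB]
      unfold idx
      rw [Finset.mem_product, Finset.mem_Icc, Finset.mem_Icc]
      push_cast
      exact hcon
    apply PB_out hg
    unfold gp
    simp only [abs_mul, Nat.abs_cast]
    rcases hi' with h | h
    · left
      have := WSU_mul hg' hk1' h
      have h3 : (s : ℤ) ≤ 2 * n := by exact_mod_cast hs
      linarith
    · right
      have := WSU_mul hg' hk1' h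
      have h3 : (t : ℤ) ≤ 2 * n := by exact_mod_cast ht
      linarith
  have hle : SB q s t (2 * n + 1) g ≤ (B.card : ℝ) := by
    unfold SB
    have e1 : ∑ i ∈ idx (2 * n + 1), PB q s t (gp g i) (2 * g - 1) =
        ∑ i ∈ (idx (2 * n + 1)).filter (fun i => i ∈ B), PB q s t (gp g i) (2 * g - 1) := by
      symm
      apply Finset.sum_filter_of_ne
      intro i _ hne
      by_contra hi
      exact hne (hzero i hi)
    rw [e1]
    refine (Finset.sum_le_card_nsmul _ _ 1 (fun i _ => SM1_PB_le_one h0 h1 s t _ _)).trans ?_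
    rw [nsmul_eq_mul, mul_one]
    have : ((idx (2 * n + 1)).filter (fun i => i ∈ B)).card ≤ B.card :=
      Finset.card_le_card fun i hi => (Finset.mem_filter.1 hi).2
    exact_mod_cast this
  refine hle.trans ?_
  have hc : B.card = (4 * k + 9) ^ 2 := by
    rw [hB]
    unfold idx
    rw [Finset.card_product, Int.card_Icc]
    have : (((2 * k + 4 : ℕ) : ℤ) + 1 - -((2 * k + 4 : ℕ) : ℤ)).toNat = 4 * k + 9 := by omega
    rw [this]
    ring
  rw [hc]
  have hgR : (0 : ℝ) < g := by exact_mod_cast (by omega : 0 < g)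
  have hkle : (k : ℝ) ≤ (n : ℝ) / g := Nat.cast_div_le
  have h1le : (1 : ℝ) ≤ (n : ℝ) / g := by
    rw [le_div_iff₀ hgR, one_mul]
    exact_mod_cast hgn
  have h2 : ((4 * k + 9 : ℕ) : ℝ) ≤ 13 * ((n : ℝ) / g) := by
    push_cast
    linarith
  calc (((4 * k + 9) ^ 2 : ℕ) : ℝ) = ((4 * k + 9 : ℕ) : ℝ) ^ 2 := by push_cast; ring
    _ ≤ (13 * ((n : ℝ) / g)) ^ 2 := by gcongr
    _ = 169 * ((n:ℝ) / g) ^ 2 := by ring

theorem wsu_s : St_WSU := by
  refine ⟨169, by norm_num, ?_⟩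
  intro q h0 h1 n g hg hgn
  have hcard : ((Icc n (2 * n)).card : ℝ) = (n:ℝ) + 1 := by
    rw [Nat.card_Icc]
    have : 2 * n + 1 - n = n + 1 := by omega
    rw [this]; push_cast; ring
  unfold WS
  have h2 : ∀ s ∈ Icc n (2 * n),
      ∑ t ∈ Icc n (2 * n), SB q s t (2 * n + 1) g ≤ ((n:ℝ) + 1) * (169 * ((n:ℝ) / g) ^ 2) := by
    intro s hs
    rw [← hcard, ← nsmul_eq_mul]
    apply Finset.sum_le_card_nsmul
    intro t ht
    rw [Finset.mem_Icc] at hs ht
    exact WSU_SB h0 h1 hg hgn hs.2 ht.2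
  have h3 := Finset.sum_le_card_nsmul _ _ _ h2
  rw [nsmul_eq_mul, hcard] at h3
  linarith

end H985S
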