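import Pool.Agent.H985R4.SW.WTH
import Pool.Agent.H985R4.SW.NR
import Pool.Agent.H985R4.SW.Fin
import Pool.Agent.H985R4.SW.KEY
import Pool.Agent.H985R4.SW.LOW
import Pool.Agent.H985R4.SW.W2
import Pool.Agent.H985R4.SW.FRR
import Pool.Agent.H985R4.SW.STAB
import Pool.Agent.H985R4.SW.WDL
import Pool.Agent.H985R4.SW.WSU
import Pool.Agent.H985R4.SW.FAR

/-!
The sharp critical window: closing.
-/

set_option autoImplicit false

namespace H985S

open H974 H12S H973N Finset

theorem stab_closed : St_STAB := stab_s TD_s HD_s key_s
theorem low_closed : St_LOW := low_s TD_s stab_closed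
theorem wdl_closed : St_WDL := wdl_s stab_closed low_closed wsu_s
theorem w2_closed : St_W2 := w2_s wdl_closed
theorem far_closed : St_FAR := far_s w2_closed
theorem frr_closed : St_FRR := frr_s far_closed
theorem nr_closed : St_NR := nr_s stab_closed HD_s

end H985S
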