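import Pool.Agent.H974R4.W2.Close
import Pool.Agent.H31R3.Kes.Inputs
import Pool.Agent.H973R3.NC.AsmD
import Pool.Agent.H988R6.Up

/-!
The sharp critical window: statements of the tasks.
-/

set_option autoImplicit false

namespace H985S

open H974 H12S H973N Finset

/-- Four-arm upper bound with the exact exponent. -/
def A4s (q A : ℝ) (n : ℕ) : Prop := ∀ k ≤ n, a4 q k ≤ A * ((k:ℝ) + 1) ^ (-(5/4 : ℝ))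

/-- (W) arithmetic of the sums, exact exponent. -/
def St_W : Prop := ∀ (q A : ℝ) (K : ℕ), 0 ≤ q → q ≤ 1 → 1 ≤ A →
    (∀ k ≤ K, a4 q (2^k) ≤ A * ((2:ℝ)^k) ^ (-(5/4 : ℝ))) →
    W1s q K ≤ 8 * A * ((2:ℝ)^K) ^ (3/4 : ℝ) ∧
    W2s q K ≤ 8 * A^2 * ((2:ℝ)^K) ^ (3/2 : ℝ) ∧
    (4:ℝ)^K * a4 q (2^K) * W1s q K ≤ 8 * A^2 * ((2:ℝ)^K) ^ (3/2 : ℝ)

/-- (TD) derivative of the sums of pivotal probabilities. -/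
def St_TD : Prop := ∀ κ : ℝ, 0 < κ → ∀ L : ℕ, 2 ≤ L →
    ∃ C : ℝ, 0 < C ∧ ∀ (q : ℝ) (n : ℕ), H12S.Win q κ n → ∀ (A : ℝ), 1 ≤ A → A4s q A n →
      ∀ (m : ℕ), 128 ≤ m → m ≤ n → ∀ (I J : Set Vtx), (∀ v ∈ I ∪ J, (m:ℤ) ≤ |v.2|) → ∃ D : ℝ,
        HasDerivAt (fun q => ∑ e ∈ boxE (m / 4), PQ q (SR L m)
          (Pf (fun F : Finset Edg => Cn I J ↑F) e)) D q ∧
          |D| ≤ C * A ^ 2 * (m:ℝ) ^ (3/2 : ℝ)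

/-- (HD) derivative of the crossing probabilities of rectangles. -/
def St_HD : Prop := ∀ κ : ℝ, 0 < κ → ∀ Λ : ℕ, 1 ≤ Λ →
    ∃ C : ℝ, 0 < C ∧ ∀ (q : ℝ) (n : ℕ), H12S.Win q κ n → ∀ (A : ℝ), 1 ≤ A → A4s q A n →
      1 ≤ n → ∀ (a b : ℕ), 1 ≤ a → a ≤ Λ * n → b ≤ Λ * n → ∃ D : ℝ,
        HasDerivAt (fun q => hh q a b) D q ∧ |D| ≤ C * A * (n:ℝ) ^ (3/4 : ℝ)

/-- (KEY) one-scale inequality without pigeonhole. -/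
def St_KEY : Prop := ∀ κ : ℝ, 0 < κ → ∃ (L : ℕ) (C θ : ℝ) (k0 : ℕ), 2 ≤ L ∧ 0 < C ∧ 0 < θ ∧
    θ * (64 * (L:ℝ)) ^ (5/4 : ℝ) ≤ 1/8 ∧
    ∀ (q : ℝ) (n : ℕ), H12S.Win q κ n → ∀ k : ℕ, k0 ≤ k → k ≤ n →
      ∃ m : ℕ, 512 ≤ m ∧ 4 * L * m ≤ k ∧ k ≤ 8 * L * m ∧
        ∃ I J : Set Vtx, (∀ v ∈ I ∪ J, (m:ℤ) ≤ |v.2|) ∧
          (m:ℝ) ^ 2 * a4 q k ≤ C * (∑ e ∈ boxE (m / 4), PQ q (SR L m)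
            (Pf (fun F : Finset Edg => Cn I J ↑F) e)) + θ * ((m:ℝ) ^ 2 * a4 q (m / 8))

/-- (STAB) sharp stability: RSW and the four-arm upper bound. -/
def St_STAB : Prop := ∃ κ A κ0 : ℝ, 0 < κ ∧ 1 ≤ A ∧ 0 < κ0 ∧ ∀ n : ℕ, 1 ≤ n → ∀ q : ℝ,
    |q - 1/2| ≤ κ0 * (n:ℝ) ^ (-(3/4 : ℝ)) → H12S.Win q κ n ∧ A4s q A n

/-- (LOW) sharp stability: the four-arm lower bound. -/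
def St_LOW : Prop := ∃ c κ0 : ℝ, 0 < c ∧ 0 < κ0 ∧ ∀ n : ℕ, 1 ≤ n → ∀ q : ℝ,
    |q - 1/2| ≤ κ0 * (n:ℝ) ^ (-(3/4 : ℝ)) → ∀ k : ℕ, 1 ≤ k → k ≤ n →
      c * (k:ℝ) ^ (-(5/4 : ℝ)) ≤ a4 q k

/-- (WSU) upper bound of the sum of block influences. -/
def St_WSU : Prop := ∃ C : ℝ, 0 < C ∧ ∀ q : ℝ, 0 ≤ q → q ≤ 1 → ∀ n g : ℕ, 1 ≤ g → g ≤ n →
    WS q n g ≤ C * ((n:ℝ) / g) ^ 2 * ((n:ℝ) + 1) ^ 2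

/-- (WDL) lower bound of the derivative, sharp form. -/
def St_WDL : Prop := ∀ κ : ℝ, 0 < κ → ∃ c β κ0 Y0 : ℝ, 0 < c ∧ 0 < β ∧ 0 < κ0 ∧ 1 ≤ Y0 ∧
    ∀ Y : ℝ, Y0 ≤ Y → ∃ N0 : ℕ, ∀ n1 : ℕ, N0 ≤ n1 → ∀ n : ℕ, Y * n1 ≤ n → (n:ℝ) ≤ 2 * Y * n1 →
      ∀ q : ℝ, |q - 1/2| ≤ κ0 * (n1:ℝ) ^ (-(3/4 : ℝ)) → H12S.Win q κ n →
        c * Y ^ β * (n1:ℝ) ^ (3/4 : ℝ) * ((n:ℝ) + 1) ^ 2 ≤ WD q n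

/-- (W2) the end of the window, sharp form. -/
def St_W2 : Prop := ∀ κ : ℝ, 0 < κ → κ ≤ 1/2 → ∃ X h0 : ℝ, 0 < X ∧ 0 < h0 ∧ ∀ q : ℝ,
    1/2 < q → q < 1/2 + h0 →
      ∃ n : ℕ, (n:ℝ) ≤ X * (q - 1/2) ^ (-(4/3 : ℝ)) ∧ ¬ H12S.Win q κ n

/-- (FAR) a supercritical scale, sharp form. -/
def St_FAR : Prop := ∃ X h0 : ℝ, 0 < X ∧ 0 < h0 ∧ ∀ h : ℝ, 0 < h → h < h0 →
    ∃ N : ℕ, 2 ≤ N ∧ (N:ℝ) ≤ X * h ^ (-(4/3 : ℝ)) ∧ eps (1/2 + h) N ≤ 1/100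

/-- (FRR) rectangles above the window. -/
def St_FRR : Prop := ∀ Λ : ℕ, 1 ≤ Λ → ∀ η : ℝ, 0 < η → ∃ (C : ℝ) (n0 : ℕ), 0 < C ∧
    ∀ n : ℕ, n0 ≤ n → ∀ a b : ℕ, 1 ≤ a → a ≤ Λ * n → n ≤ Λ * b → ∀ p : ℝ,
      1/2 + C * (n:ℝ) ^ (-(3/4 : ℝ)) ≤ p → p ≤ 1 → 1 - η ≤ hh p a b

/-- (NR) rectangles inside the window. -/
def St_NR : Prop := ∀ Λ : ℕ, 1 ≤ Λ → ∀ η : ℝ, 0 < η → ∃ c : ℝ, 0 < c ∧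
    ∀ n : ℕ, 1 ≤ n → ∀ a b : ℕ, 1 ≤ a → a ≤ Λ * n → b ≤ Λ * n → ∀ p : ℝ,
      |p - 1/2| ≤ c * (n:ℝ) ^ (-(3/4 : ℝ)) → |hh p a b - hh (1/2) a b| ≤ η

end H985S
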